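import Mathlib

set_option autoImplicit false
open Filter Topology Finset

/-! The elements of the semigroup generated by two and three in a dyadic window. -/

namespace Helper58.DW

/-- the integer part of the binary logarithm of a power of three -/
def ll (l : ℕ) : ℕ := Nat.log 2 (3 ^ l)

/-- the element of the window with index `l` -/
def sq (n l : ℕ) : ℕ := 3 ^ l * 2 ^ (n - ll l)

/-- the number of elements of the window (truncated at `M`) -/
def Kn (n M : ℕ) : ℕ := min M (Nat.clog 3 (2 ^ (n + 1)))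

open Classical in
/-- the window -/
noncomputable def Win (n M : ℕ) : Finset ℕ :=
  (range (2 ^ (n + 1))).filter (fun s => 2 ^ n ≤ s ∧ ∃ i l : ℕ, l < M ∧ s = 2 ^ i * 3 ^ l)

lemma ll_le (l : ℕ) : 2 ^ ll l ≤ 3 ^ l := Nat.pow_log_le_self 2 (by positivity)

lemma lt_ll (l : ℕ) : 3 ^ l < 2 ^ (ll l + 1) := Nat.lt_pow_succ_log_self (by norm_num) _

lemma lt_clog_iff (n l : ℕ) : l < Nat.clog 3 (2 ^ (n + 1)) ↔ ll l ≤ n := by
  have h1 : l < Nat.clog 3 (2 ^ (n + 1)) ↔ 3 ^ l < 2 ^ (n + 1) := by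
    rw [← not_le, ← not_le, ← Nat.clog_le_iff_le_pow (by norm_num)]
  rw [h1]
  constructor
  · intro h
    have := lt_of_le_of_lt (ll_le l) h
    rw [Nat.pow_lt_pow_iff_right (by norm_num)] at this
    omega
  · intro h
    exact lt_of_lt_of_le (lt_ll l) (Nat.pow_le_pow_right (by norm_num) (by omega))

lemma ll_le_of_lt {n M l : ℕ} (h : l < Kn n M) : ll l ≤ n :=
  (lt_clog_iff n l).1 (lt_of_lt_of_le h (min_le_right _ _))

lemma lt_Kn_iff (n M l : ℕ) : l < Kn n M ↔ l < M ∧ ll l ≤ n := by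
  unfold Kn
  rw [lt_min_iff, lt_clog_iff]

lemma sq_mem {n l : ℕ} (h : ll l ≤ n) : 2 ^ n ≤ sq n l ∧ sq n l < 2 ^ (n + 1) := by
  have e1 : 2 ^ n = 2 ^ ll l * 2 ^ (n - ll l) := by
    rw [← pow_add]; congr 1; omega
  have e2 : 2 ^ (n + 1) = 2 ^ (ll l + 1) * 2 ^ (n - ll l) := by
    rw [← pow_add]; congr 1; omega
  unfold sq
  constructor
  · rw [e1]
    exact Nat.mul_le_mul_right _ (ll_le l)
  · rw [e2]
    exact Nat.mul_lt_mul_of_pos_right (lt_ll l) (by positivity)

lemma three_dvd_sq (n l : ℕ) : 3 ^ l ∣ sq n l := Dvd.intro _ rfl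

lemma not_three_dvd_sq (n l : ℕ) : ¬ 3 ^ (l + 1) ∣ sq n l := by
  intro h
  unfold sq at h
  rw [pow_succ] at h
  have h1 := Nat.dvd_of_mul_dvd_mul_left (by positivity) h
  have h2 := Nat.Prime.dvd_of_dvd_pow Nat.prime_three h1
  omega

lemma sq_inj (n : ℕ) : Function.Injective (sq n) := by
  intro l l' h
  rcases lt_trichotomy l l' with h1 | h1 | h1
  · exact absurd ((pow_dvd_pow 3 (by omega : l + 1 ≤ l')).trans (h ▸ three_dvd_sq n l'))
      (not_three_dvd_sq n l)
  · exact h1
  · exact absurd ((pow_dvd_pow 3 (by omega : l' + 1 ≤ l)).trans (h ▸ three_dvd_sq n l))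
      (not_three_dvd_sq n l')

lemma Win_eq (n M : ℕ) : Win n M = (range (Kn n M)).image (sq n) := by
  classical
  ext s
  unfold Win
  rw [mem_filter, mem_range, mem_image]
  constructor
  · rintro ⟨h1, h2, i, l, hl, rfl⟩
    have h3 : i + ll l = n := by
      have h4 : 2 ^ (i + ll l) < 2 ^ (n + 1) := by
        refine lt_of_le_of_lt ?_ h1
        rw [pow_add]
        exact Nat.mul_le_mul_left _ (ll_le l)
      have h5 : 2 ^ n < 2 ^ (i + ll l + 1) := by
        refine lt_of_le_of_lt h2 ?_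
        rw [add_assoc, pow_add]
        exact Nat.mul_lt_mul_of_pos_left (lt_ll l) (by positivity)
      rw [Nat.pow_lt_pow_iff_right (by norm_num)] at h4 h5
      omega
    refine ⟨l, ?_, ?_⟩
    · rw [mem_range, lt_Kn_iff]
      omega
    · unfold sq
      rw [mul_comm]
      congr 2
      omega
  · rintro ⟨l, hl, rfl⟩
    rw [mem_range, lt_Kn_iff] at hl
    have h := sq_mem hl.2
    exact ⟨h.2, h.1, n - ll l, l, hl.1, mul_comm _ _⟩

lemma card_Win (n M : ℕ) : (Win n M).card = Kn n M := by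
  rw [Win_eq, Finset.card_image_of_injective _ (sq_inj n), card_range]

lemma sum_Win (n M : ℕ) (f : ℕ → ℂ) : ∑ s ∈ Win n M, f s = ∑ l ∈ range (Kn n M), f (sq n l) := by
  rw [Win_eq, Finset.sum_image fun a _ b _ h => sq_inj n h]

lemma Kn_ge (n M l : ℕ) (h1 : l ≤ M) (h2 : 2 * l ≤ n) : l ≤ Kn n M := by
  rcases Nat.eq_zero_or_pos l with h | h
  · omega
  · have : l - 1 < Kn n M := by
      rw [lt_Kn_iff]
      refine ⟨by omega, ?_⟩
      have h3 : 2 ^ ll (l - 1) ≤ 2 ^ (2 * (l - 1)) := by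
        refine (ll_le (l - 1)).trans ?_
        rw [pow_mul]
        exact Nat.pow_le_pow_left (by norm_num) _
      rw [Nat.pow_le_pow_iff_right (by norm_num)] at h3
      omega
    omega

lemma tendsto_Kn (M : ℕ → ℕ) (hM : Tendsto M atTop atTop) :
    Tendsto (fun n => Kn n (M n)) atTop atTop := by
  rw [tendsto_atTop] at hM ⊢
  intro b
  filter_upwards [hM b, eventually_ge_atTop (2 * b)] with n h1 h2
  exact Kn_ge n (M n) b h1 h2

/-- the mantissa of a power of three -/
noncomputable def uu (l : ℕ) : ℝ := 3 ^ l / 2 ^ ll l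

lemma one_le_uu (l : ℕ) : 1 ≤ uu l := by
  unfold uu
  rw [one_le_div (by positivity)]
  exact_mod_cast ll_le l

lemma uu_lt_two (l : ℕ) : uu l < 2 := by
  unfold uu
  rw [div_lt_iff₀ (by positivity)]
  have := lt_ll l
  rw [pow_succ, mul_comm] at this
  exact_mod_cast this

lemma sq_eq {n l : ℕ} (h : ll l ≤ n) : (sq n l : ℝ) = 2 ^ n * uu l := by
  unfold sq uu
  have e1 : (2 : ℝ) ^ n = 2 ^ ll l * 2 ^ (n - ll l) := by
    rw [← pow_add]; congr 1; omega
  rw [e1]
  push_cast
  field_simp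

lemma logb_uu (l : ℕ) : Real.logb 2 (uu l) = l * Real.logb 2 3 - ll l := by
  unfold uu
  rw [Real.logb_div (by positivity) (by positivity), Real.logb_pow, Real.logb_pow,
    Real.logb_self_eq_one (by norm_num), mul_one]

lemma logb_uu_lip (l l' : ℕ) :
    |Real.logb 2 (uu l) - Real.logb 2 (uu l')| ≤ 2 * |uu l - uu l'| := by
  have key : ∀ a b : ℝ, 1 ≤ b → b ≤ a → Real.logb 2 a - Real.logb 2 b ≤ 2 * (a - b) := by
    intro a b hb hab
    rw [← Real.logb_div (by linarith) (by linarith)]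
    unfold Real.logb
    have h1 : Real.log (a / b) ≤ a / b - 1 := Real.log_le_sub_one_of_pos (div_pos (by linarith) (by linarith))
    have h2 : a / b - 1 ≤ a - b := by
      rw [div_sub_one (by linarith), div_le_iff₀ (by linarith)]
      nlinarith
    have h3 : (1 / 2 : ℝ) ≤ Real.log 2 := by
      have := Real.log_two_gt_d9
      linarith
    rw [div_le_iff₀ (by linarith)]
    nlinarith
  rcases le_total (uu l) (uu l') with h | h
  · have h1 := key _ _ (one_le_uu l) h
    have h2 : Real.logb 2 (uu l) ≤ Real.logb 2 (uu l') :=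
      Real.logb_le_logb_of_le (by norm_num) (by linarith [one_le_uu l]) h
    rw [abs_sub_comm, abs_of_nonneg (by linarith), abs_sub_comm, abs_of_nonneg (by linarith)]
    exact h1
  · have h1 := key _ _ (one_le_uu l') h
    have h2 : Real.logb 2 (uu l') ≤ Real.logb 2 (uu l) :=
      Real.logb_le_logb_of_le (by norm_num) (by linarith [one_le_uu l']) h
    rw [abs_of_nonneg (by linarith), abs_of_nonneg (by linarith)]
    exact h1

end Helper58.DW
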