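import Pool.Agent.Helper58.DW.Block
import Pool.Agent.Helper58.DW.Win
import Pool.Agent.Helper58.FH.Basic
import Pool.Agent.Helper17.Furstenberg

set_option autoImplicit false
open MeasureTheory Filter Topology Metric Finset
open Helper58.FH (Tor)

/-! Two points at distance about `2 ^ (-n)` are not both good at the window with index `n`. -/

namespace Helper58.DW

lemma lam_irr : Irrational (Real.logb 2 3) := by
  have h := Helper17.Furst.log_irr
  rw [← irrational_inv_iff, inv_div] at h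
  exact h

lemma count_uu (δ : ℝ) (hδ : 0 < δ) (hδ1 : δ ≤ 1 / 4) : ∃ M0 : ℕ, ∀ M, M0 ≤ M →
    ∀ F : Finset ℕ, F ⊆ range M → (∀ l ∈ F, ∀ l' ∈ F, |uu l - uu l'| ≤ δ) →
      (F.card : ℝ) ≤ 6 * δ * M := by
  obtain ⟨C, hC, h⟩ := arcs (Real.logb 2 3) lam_irr δ hδ
  obtain ⟨M0, hM0⟩ := exists_nat_gt (C / δ)
  refine ⟨M0, fun M hM F hF hF2 => ?_⟩
  have hMr : (M0 : ℝ) ≤ M := by exact_mod_cast hM
  rw [div_lt_iff₀ hδ] at hM0
  rcases F.eq_empty_or_nonempty with h1 | ⟨l1, hl1⟩
  · rw [h1, card_empty]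
    push_cast
    positivity
  · have h2 := h (Real.logb 2 (uu l1) - 2 * δ) (Real.logb 2 (uu l1) + 2 * δ) (by linarith)
      (by linarith) 0 M F hF (fun l hl => by
        refine ⟨ll l, ?_⟩
        have h3 := (logb_uu_lip l l1).trans (mul_le_mul_of_nonneg_left (hF2 l hl l1 hl1)
          (by norm_num))
        rw [abs_le, logb_uu l] at h3
        push_cast
        constructor <;> linarith [h3.1, h3.2])
    refine h2.trans ?_
    nlinarith

/-- a point is good if three quarters of the window lie in the set -/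
def Good (n K : ℕ) (U : Set Tor) (x : Tor) : Prop :=
  ∀ F : Finset ℕ, F ⊆ range K → (∀ l ∈ F, sq n l • x ∉ U) → 4 * F.card ≤ K

lemma pair (A : Finset Tor) (ρ : ℝ) (hρ : 0 < ρ) (hA : 1600 * (A.card : ℝ) ^ 2 * ρ ≤ 1) :
    ∃ M0 : ℕ, ∀ n K : ℕ, M0 ≤ K → (∀ l < K, ll l ≤ n) → ∀ x y : Tor,
      1 / 8 ≤ 2 ^ n * ‖x - y‖ → 2 ^ n * ‖x - y‖ < 1 / 4 →
      Good n K (⋃ a ∈ A, closedBall a (2 * ρ)) x →
      Good n K (⋃ a ∈ A, closedBall a (2 * ρ)) y → False := by
  classical
  rcases A.eq_empty_or_nonempty with hA0 | hA0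
  · refine ⟨1, fun n K hK _ x y _ _ hx _ => ?_⟩
    have := hx (range K) (le_refl _) (fun l _ => by simp [hA0])
    rw [card_range] at this
    omega
  have hA1 : (1 : ℝ) ≤ A.card := by exact_mod_cast hA0.card_pos
  have hρ1 : 1600 * ρ ≤ 1 := by
    refine le_trans ?_ hA
    have : (1 : ℝ) ≤ (A.card : ℝ) ^ 2 := by nlinarith
    nlinarith
  obtain ⟨M0, hM0⟩ := count_uu (64 * ρ) (by positivity) (by linarith)
  refine ⟨max M0 1, fun n K hK hll x y h1 h2 hx hy => ?_⟩
  have hK0 : M0 ≤ K := (le_max_left _ _).trans hK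
  have hK1 : 1 ≤ K := (le_max_right _ _).trans hK
  have hKr : (1 : ℝ) ≤ K := by exact_mod_cast hK1
  obtain ⟨z, hz, hzn⟩ := Helper58.FH.exists_rep (x - y)
  set d := ‖x - y‖ with hd
  have hd0 : 0 < d := by
    by_contra hcon
    have : d ≤ 0 := not_lt.1 hcon
    have : (2 : ℝ) ^ n * d ≤ 0 := mul_nonpos_of_nonneg_of_nonpos (by positivity) this
    linarith
  set U := ⋃ a ∈ A, closedBall a (2 * ρ) with hU
  set Fx := (range K).filter (fun l => sq n l • x ∉ U) with hFx
  set Fy := (range K).filter (fun l => sq n l • y ∉ U) with hFy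
  have h3 := hx Fx (filter_subset _ _) (fun l hl => (mem_filter.1 hl).2)
  have h4 := hy Fy (filter_subset _ _) (fun l hl => (mem_filter.1 hl).2)
  set P : Tor × Tor → Finset ℕ := fun a => (range K).filter
    (fun l => sq n l • x ∈ closedBall a.1 (2 * ρ) ∧ sq n l • y ∈ closedBall a.2 (2 * ρ)) with hP
  have hcov : range K ⊆ Fx ∪ Fy ∪ (A ×ˢ A).biUnion P := by
    intro l hl
    rw [mem_union, mem_union]
    by_cases hx' : sq n l • x ∈ U
    · by_cases hy' : sq n l • y ∈ U
      · right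
        rw [hU, Set.mem_iUnion₂] at hx' hy'
        obtain ⟨a, ha, hxa⟩ := hx'
        obtain ⟨b, hb, hyb⟩ := hy'
        rw [mem_biUnion]
        exact ⟨(a, b), mem_product.2 ⟨ha, hb⟩, mem_filter.2 ⟨hl, hxa, hyb⟩⟩
      · left; right
        exact mem_filter.2 ⟨hl, hy'⟩
    · left; left
      exact mem_filter.2 ⟨hl, hx'⟩
  have hPc : ∀ a ∈ A ×ˢ A, ((P a).card : ℝ) ≤ 6 * (64 * ρ) * K := by
    intro a _
    refine hM0 K hK0 (P a) (filter_subset _ _) ?_
    have hmem : ∀ l ∈ P a, l < K ∧ ‖sq n l • (x - y) - (a.1 - a.2)‖ ≤ 4 * ρ := by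
      intro l hl
      rw [hP, mem_filter, mem_range, mem_closedBall, mem_closedBall, dist_eq_norm,
        dist_eq_norm] at hl
      refine ⟨hl.1, ?_⟩
      have e : sq n l • (x - y) - (a.1 - a.2) = (sq n l • x - a.1) - (sq n l • y - a.2) := by
        rw [smul_sub]; abel
      rw [e]
      refine (norm_sub_le _ _).trans ?_
      linarith [hl.2.1, hl.2.2]
    intro l hl l' hl'
    obtain ⟨hlK, h5⟩ := hmem l hl
    obtain ⟨hlK', h6⟩ := hmem l' hl'
    have h7 : ‖sq n l • (x - y) - sq n l' • (x - y)‖ ≤ 8 * ρ := by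
      have e : sq n l • (x - y) - sq n l' • (x - y) =
          (sq n l • (x - y) - (a.1 - a.2)) - (sq n l' • (x - y) - (a.1 - a.2)) := by abel
      rw [e]
      refine (norm_sub_le _ _).trans ?_
      linarith
    have e8 : sq n l • (x - y) - sq n l' • (x - y) =
        ((2 ^ n * (uu l - uu l') * z : ℝ) : Tor) := by
      rw [← hz, ← AddCircle.coe_nsmul, ← AddCircle.coe_nsmul, ← AddCircle.coe_sub, nsmul_eq_mul,
        nsmul_eq_mul, sq_eq (hll l hlK), sq_eq (hll l' hlK')]
      congr 1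
      ring
    have h9 : |2 ^ n * (uu l - uu l') * z| = 2 ^ n * d * |uu l - uu l'| := by
      rw [abs_mul, abs_mul, hzn, abs_of_pos (by positivity : (0 : ℝ) < 2 ^ n)]
      ring
    have h10 : |uu l - uu l'| ≤ 1 := by
      have a1 := one_le_uu l
      have a2 := uu_lt_two l
      have a3 := one_le_uu l'
      have a4 := uu_lt_two l'
      rw [abs_le]
      constructor <;> linarith
    have h11 : ‖((2 ^ n * (uu l - uu l') * z : ℝ) : Tor)‖ = |2 ^ n * (uu l - uu l') * z| := by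
      rw [AddCircle.norm_coe_eq_abs_iff (1 : ℝ) one_ne_zero, h9, abs_one]
      nlinarith [abs_nonneg (uu l - uu l')]
    rw [e8, h11, h9] at h7
    nlinarith [abs_nonneg (uu l - uu l')]
  have hcard : K ≤ Fx.card + Fy.card + ∑ a ∈ A ×ˢ A, (P a).card := by
    calc K = (range K).card := (card_range K).symm
      _ ≤ (Fx ∪ Fy ∪ (A ×ˢ A).biUnion P).card := card_le_card hcov
      _ ≤ (Fx ∪ Fy).card + ((A ×ˢ A).biUnion P).card := card_union_le _ _
      _ ≤ Fx.card + Fy.card + ∑ a ∈ A ×ˢ A, (P a).card :=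
        add_le_add (card_union_le _ _) card_biUnion_le
  have h5 : (K : ℝ) ≤ K / 4 + K / 4 + (A.card : ℝ) ^ 2 * (6 * (64 * ρ) * K) := by
    have h6 : (K : ℝ) ≤ Fx.card + Fy.card + ∑ a ∈ A ×ˢ A, ((P a).card : ℝ) := by
      exact_mod_cast hcard
    have h7 : (4 * Fx.card : ℝ) ≤ K := by exact_mod_cast h3
    have h8 : (4 * Fy.card : ℝ) ≤ K := by exact_mod_cast h4
    have h9 : ∑ a ∈ A ×ˢ A, ((P a).card : ℝ) ≤ (A.card : ℝ) ^ 2 * (6 * (64 * ρ) * K) := by
      refine (Finset.sum_le_sum hPc).trans (le_of_eq ?_)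
      rw [Finset.sum_const, card_product, nsmul_eq_mul]
      push_cast
      ring
    linarith
  nlinarith

/-- the points which are good at all windows with large index form a countable set -/
theorem countable_good (A : Finset Tor) (ρ : ℝ) (hρ : 0 < ρ)
    (hA : 1600 * (A.card : ℝ) ^ 2 * ρ ≤ 1) (M : ℕ → ℕ) (hM : Tendsto M atTop atTop) :
    {x : Tor | ∃ n0 : ℕ, ∀ n, n0 ≤ n →
      Good n (Kn n (M n)) (⋃ a ∈ A, closedBall a (2 * ρ)) x}.Countable := by
  obtain ⟨M0, hM0⟩ := pair A ρ hρ hA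
  obtain ⟨n1, hn1⟩ := eventually_atTop.1 ((tendsto_Kn M hM).eventually_ge_atTop M0)
  set U := ⋃ a ∈ A, closedBall a (2 * ρ) with hU
  have hfin : ∀ n0 : ℕ, {x : Tor | ∀ n, n0 ≤ n → Good n (Kn n (M n)) U x}.Finite := by
    intro n0
    set m := max n0 n1 with hm
    have hsep : ∀ x ∈ {x : Tor | ∀ n, n0 ≤ n → Good n (Kn n (M n)) U x},
        ∀ y ∈ {x : Tor | ∀ n, n0 ≤ n → Good n (Kn n (M n)) U x}, x ≠ y →
        1 / 4 ≤ 2 ^ m * ‖x - y‖ := by
      intro x hx y hy hxy
      by_contra hcon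
      push Not at hcon
      have hd : 0 < ‖x - y‖ := norm_pos_iff.2 (sub_ne_zero.2 hxy)
      -- the first index for which the distance is at least one quarter
      have hex : ∃ k : ℕ, 1 / 4 ≤ 2 ^ k * ‖x - y‖ := by
        obtain ⟨k, hk⟩ := pow_unbounded_of_one_lt (1 / 4 / ‖x - y‖) (by norm_num : (1 : ℝ) < 2)
        rw [div_lt_iff₀ hd] at hk
        exact ⟨k, hk.le⟩
      classical
      have hk := Nat.find_spec hex
      set k := Nat.find hex with hkdef
      have hkm : m < k := by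
        by_contra h
        have : (2 : ℝ) ^ k * ‖x - y‖ ≤ 2 ^ m * ‖x - y‖ := by
          have : (2 : ℝ) ^ k ≤ 2 ^ m := pow_le_pow_right₀ (by norm_num) (not_lt.1 h)
          gcongr
        linarith
      obtain ⟨j, hjk⟩ : ∃ j, k = j + 1 := ⟨k - 1, by omega⟩
      have h1 : (2 : ℝ) ^ j * ‖x - y‖ < 1 / 4 := by
        have := Nat.find_min hex (m := j) (by omega)
        exact not_le.1 this
      have h2 : 1 / 8 ≤ (2 : ℝ) ^ j * ‖x - y‖ := by
        rw [hjk, pow_succ] at hk
        linarith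
      have hj : m ≤ j := by omega
      exact hM0 j (Kn j (M j)) (hn1 j ((le_max_right _ _).trans hj))
        (fun l hl => ll_le_of_lt hl) x y h2 h1 (hx j ((le_max_left _ _).trans hj))
        (hy j ((le_max_left _ _).trans hj))
    -- separated sets are finite
    set Q : ℕ := 2 ^ (m + 4) with hQ
    have hQ0 : 0 < Q := by positivity
    choose f hf1 hf2 using fun x : Tor => Helper58.FH.exists_center Q hQ0 x
    refine Set.Finite.of_finite_image (f := f) ((finite_toSet (range Q)).subset ?_) ?_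
    · rintro _ ⟨x, _, rfl⟩
      exact hf1 x
    · intro x hx y hy hxy
      by_contra hne
      have h1 := hsep x hx y hy hne
      have h2 := hf2 x
      have h3 := hf2 y
      rw [← hxy] at h3
      have h4 : ‖x - y‖ ≤ 2 / Q := by
        have e : x - y = (x - ((f x / Q : ℝ) : Tor)) - (y - ((f x / Q : ℝ) : Tor)) := by abel
        rw [e]
        refine (norm_sub_le _ _).trans ?_
        have : (2 : ℝ) / Q = 1 / Q + 1 / Q := by ring
        rw [this]
        exact add_le_add h2 h3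
      have h5 : (2 : ℝ) ^ m * (2 / Q) = 1 / 8 := by
        rw [hQ]
        push_cast
        rw [pow_add]
        field_simp
        norm_num
      have h6 : (2 : ℝ) ^ m * ‖x - y‖ ≤ 2 ^ m * (2 / Q) := by gcongr
      linarith
  have e : {x : Tor | ∃ n0 : ℕ, ∀ n, n0 ≤ n → Good n (Kn n (M n)) U x} =
      ⋃ n0 : ℕ, {x : Tor | ∀ n, n0 ≤ n → Good n (Kn n (M n)) U x} := by
    ext x
    simp only [Set.mem_ofPred_eq, Set.mem_iUnion]
  rw [e]
  exact Set.countable_iUnion fun n0 => (hfin n0).countable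

end Helper58.DW
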