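import Mathlib

set_option autoImplicit false
open Filter Topology Finset

/-! Counting the visits of an irrational rotation to an arc. -/

namespace Helper58.DW

lemma card_Icc_le (a b : ℝ) (h : a ≤ b) : ((Finset.Icc ⌈a⌉ ⌊b⌋).card : ℝ) ≤ b - a + 1 := by
  rw [Int.card_Icc]
  have h1 := Int.floor_le b
  have h2 := Int.le_ceil a
  rcases le_or_gt 0 (⌊b⌋ + 1 - ⌈a⌉) with h3 | h3
  · have h4 : (((⌊b⌋ + 1 - ⌈a⌉).toNat : ℤ) : ℝ) = ((⌊b⌋ + 1 - ⌈a⌉ : ℤ) : ℝ) := by
      rw [Int.toNat_of_nonneg h3]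
    rw [Int.cast_natCast] at h4
    rw [h4]; push_cast; linarith
  · rw [Int.toNat_of_nonpos h3.le]
    push_cast; linarith

lemma block (lam : ℝ) (p : ℤ) (q : ℕ) (hq : 0 < q) (hpq : IsCoprime p (q : ℤ))
    (h : |lam - p / q| < 1 / (q : ℝ) ^ 2) (α β : ℝ) (hαβ : α ≤ β) (c : ℝ) (F : Finset ℕ)
    (hF : F ⊆ range q)
    (h2 : ∀ j ∈ F, ∃ z : ℤ, α ≤ c + j * lam - z ∧ c + j * lam - z ≤ β) :
    (F.card : ℝ) ≤ q * (β - α) + 3 := by
  classical
  have hqr : (0 : ℝ) < q := by exact_mod_cast hq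
  choose! z hz1 hz2 using h2
  set f : ℕ → ℤ := fun j => p * j - q * z j with hf
  have h3 : F.card ≤ (Finset.Icc ⌈(q : ℝ) * (α - c) - 1⌉ ⌊(q : ℝ) * (β - c) + 1⌋).card := by
    apply Finset.card_le_card_of_injOn f
    · intro j hj
      have hj' : j < q := by simpa using hF hj
      have hjr : (j : ℝ) < q := by exact_mod_cast hj'
      have hj0 : (0 : ℝ) ≤ j := Nat.cast_nonneg j
      have e1 : (q : ℝ) * (j * lam - z j) - (p * j - q * z j) = j * (q * (lam - p / q)) := by
        field_simp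
        ring
      have e2 : |(j : ℝ) * (q * (lam - p / q))| ≤ 1 := by
        rw [abs_mul, abs_mul, abs_of_nonneg hj0, abs_of_pos hqr]
        calc (j : ℝ) * (q * |lam - p / q|) ≤ q * (q * (1 / (q : ℝ) ^ 2)) := by gcongr
          _ = 1 := by field_simp
      rw [← e1, abs_le] at e2
      have h4 := hz1 j hj
      have h5 := hz2 j hj
      simp only [Finset.coe_Icc, Set.mem_Icc, hf]
      rw [Int.ceil_le, Int.le_floor]
      push_cast
      constructor
      · nlinarith
      · nlinarith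
    · intro j hj j' hj' hjj
      have h4 : j < q := by simpa using hF hj
      have h5 : j' < q := by simpa using hF hj'
      simp only [hf] at hjj
      have h6 : p * ((j : ℤ) - j') = q * (z j - z j') := by linarith
      have h7 : (q : ℤ) ∣ p * ((j : ℤ) - j') := ⟨_, h6⟩
      have h8 : (q : ℤ) ∣ (j : ℤ) - j' := hpq.symm.dvd_of_dvd_mul_left h7
      have h9 : (j : ℤ) - j' = 0 := Int.eq_zero_of_abs_lt_dvd h8 (by rw [abs_lt]; omega)
      omega
  have h4 := card_Icc_le ((q : ℝ) * (α - c) - 1) ((q : ℝ) * (β - c) + 1) (by nlinarith)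
  have h5 : (F.card : ℝ) ≤
      ((Finset.Icc ⌈(q : ℝ) * (α - c) - 1⌉ ⌊(q : ℝ) * (β - c) + 1⌋).card : ℝ) := by
    exact_mod_cast h3
  nlinarith

lemma exists_den (lam : ℝ) (hl : Irrational lam) (N : ℕ) :
    ∃ r : ℚ, N < r.den ∧ |lam - r| < 1 / (r.den : ℝ) ^ 2 := by
  by_contra hcon
  push Not at hcon
  have hinf := Real.infinite_rat_abs_sub_lt_one_div_den_sq_of_irrational hl
  apply hinf
  have hsub : {q : ℚ | |lam - q| < 1 / (q.den : ℝ) ^ 2} ⊆
      (fun x : ℤ × ℕ => (x.1 / x.2 : ℚ)) '' (Set.Icc (-⌈(|lam| + 1) * N⌉) ⌈(|lam| + 1) * N⌉ ×ˢ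
        Set.Iic N) := by
    intro r hr
    rw [Set.mem_ofPred_eq] at hr
    have h1 : r.den ≤ N := by
      by_contra h
      exact absurd hr (not_lt.2 (hcon r (not_le.1 h)))
    refine ⟨(r.num, r.den), ⟨?_, h1⟩, by simp [Rat.num_div_den]⟩
    have hd : (1 : ℝ) ≤ r.den := by exact_mod_cast r.den_pos
    have h2 : |lam - r| < 1 := lt_of_lt_of_le hr (by
      rw [div_le_one (by positivity)]
      nlinarith)
    have h3 : |(r : ℝ)| ≤ |lam| + 1 := by
      have := abs_sub_abs_le_abs_sub (r : ℝ) lam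
      rw [abs_sub_comm] at this
      linarith
    have h4 : (r.num : ℝ) = r * r.den := by
      have := Rat.mul_den_eq_num r
      exact_mod_cast this.symm
    have h5 : |(r.num : ℝ)| ≤ (|lam| + 1) * N := by
      rw [h4, abs_mul]
      have h6 : |(r.den : ℝ)| ≤ N := by
        rw [abs_of_nonneg (by positivity)]
        exact_mod_cast h1
      gcongr
    have h6 : |(r.num : ℝ)| ≤ ⌈(|lam| + 1) * N⌉ := h5.trans (Int.le_ceil _)
    rw [abs_le] at h6
    constructor
    · exact_mod_cast h6.1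
    · exact_mod_cast h6.2
  exact (((Set.finite_Icc _ _).prod (Set.finite_Iic _)).image _).subset hsub

lemma arcs (lam : ℝ) (hl : Irrational lam) (ε : ℝ) (hε : 0 < ε) :
    ∃ C : ℝ, 0 < C ∧ ∀ α β : ℝ, α ≤ β → β - α ≤ 1 → ∀ (c : ℝ) (K : ℕ) (F : Finset ℕ),
      F ⊆ range K → (∀ j ∈ F, ∃ z : ℤ, α ≤ c + j * lam - z ∧ c + j * lam - z ≤ β) →
        (F.card : ℝ) ≤ (β - α + ε) * K + C := by
  classical
  obtain ⟨N, hN⟩ := exists_nat_gt (3 / ε)
  obtain ⟨r, hr1, hr2⟩ := exists_den lam hl N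
  set q := r.den with hq
  have hq0 : 0 < q := r.den_pos
  have hqr : (0 : ℝ) < q := by exact_mod_cast hq0
  have h3 : 3 / (q : ℝ) ≤ ε := by
    have h4 : (N : ℝ) < q := by exact_mod_cast hr1
    rw [div_le_iff₀ hqr]
    rw [div_lt_iff₀ hε] at hN
    nlinarith
  have hcop : IsCoprime r.num (q : ℤ) := by
    rw [Int.isCoprime_iff_gcd_eq_one]
    exact r.reduced
  have hr3 : |lam - r.num / q| < 1 / (q : ℝ) ^ 2 := by
    have e : (r : ℝ) = r.num / q := by
      have := Rat.num_div_den r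
      rw [hq]
      exact_mod_cast this.symm
    rw [← e]; exact hr2
  refine ⟨q + 3, by positivity, fun α β hαβ hβα c K F hF h2 => ?_⟩
  have hb : ∀ b ∈ range (K / q + 1), (((F.filter (fun j => j / q = b)).card : ℕ) : ℝ) ≤
      q * (β - α) + 3 := by
    intro b _
    have hinj : Set.InjOn (fun j => j - b * q) (F.filter (fun j => j / q = b) : Finset ℕ) := by
      intro j hj j' hj' hjj
      simp only [coe_filter, Set.mem_ofPred_eq] at hj hj'
      have h4 : b * q ≤ j := by rw [← hj.2]; exact Nat.div_mul_le_self j q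
      have h5 : b * q ≤ j' := by rw [← hj'.2]; exact Nat.div_mul_le_self j' q
      simp only at hjj
      omega
    rw [← Finset.card_image_of_injOn hinj]
    refine block lam r.num q hq0 hcop hr3 α β hαβ (c + (b * q : ℕ) * lam) _ ?_ ?_
    · intro i hi
      rw [mem_image] at hi
      obtain ⟨j, hj, rfl⟩ := hi
      rw [mem_filter] at hj
      rw [mem_range]
      have h4 := Nat.div_add_mod j q
      have h5 := Nat.mod_lt j hq0
      have h6 : b * q = q * (j / q) := by rw [← hj.2]; ring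
      omega
    · intro i hi
      rw [mem_image] at hi
      obtain ⟨j, hj, rfl⟩ := hi
      rw [mem_filter] at hj
      obtain ⟨z, hz1, hz2⟩ := h2 j hj.1
      have h4 : b * q ≤ j := by rw [← hj.2]; exact Nat.div_mul_le_self j q
      have e : c + (b * q : ℕ) * lam + ((j - b * q : ℕ) : ℝ) * lam = c + j * lam := by
        rw [Nat.cast_sub h4]; ring
      refine ⟨z, ?_, ?_⟩
      · rw [e]; exact hz1
      · rw [e]; exact hz2
  have hsum : F.card = ∑ b ∈ range (K / q + 1), (F.filter (fun j => j / q = b)).card := by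
    apply Finset.card_eq_sum_card_fiberwise
    intro j hj
    have h4 : j < K := by simpa using hF hj
    simp only [coe_range, Set.mem_Iio]
    have := Nat.div_le_div_right (c := q) h4.le
    omega
  rw [hsum]
  push_cast
  refine (Finset.sum_le_sum hb).trans ?_
  rw [Finset.sum_const, card_range, nsmul_eq_mul]
  push_cast
  have h4 : ((K / q : ℕ) : ℝ) ≤ K / q := Nat.cast_div_le
  have h5 : (0 : ℝ) ≤ q * (β - α) + 3 := by
    have : 0 ≤ β - α := by linarith
    positivity
  calc (((K / q : ℕ) : ℝ) + 1) * (q * (β - α) + 3) ≤ (K / q + 1) * (q * (β - α) + 3) := by gcongr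
    _ = K * (β - α) + (3 / q) * K + (q * (β - α) + 3) := by field_simp
    _ ≤ K * (β - α) + ε * K + (q * 1 + 3) := by gcongr
    _ = (β - α + ε) * K + (q + 3) := by ring

end Helper58.DW
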