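import Pool.Agent.Helper58.DW.Pair

set_option autoImplicit false
open MeasureTheory Filter Topology Metric Finset

/-! The exponents of two and three in the windows are jointly equidistributed modulo `N`. -/

namespace Helper58.DW

lemma count_ab (N : ℕ) (hN : 1 ≤ N) (ε : ℝ) (hε : 0 < ε) : ∃ C : ℝ, 0 < C ∧
    ∀ K n : ℕ, (∀ l < K, ll l ≤ n) → ∀ a < N, ∀ b < N,
      (((range K).filter (fun l => l % N = a ∧ (n - ll l) % N = b)).card : ℝ) ≤
        (1 / (N : ℝ) ^ 2 + ε) * K + C := by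
  classical
  obtain ⟨C, hC, h⟩ := arcs (Real.logb 2 3) lam_irr ε hε
  have hNr : (1 : ℝ) ≤ N := by exact_mod_cast hN
  refine ⟨C + 1 + ε, by positivity, fun K n hll a ha b hb => ?_⟩
  set F := (range K).filter (fun l => l % N = a ∧ (n - ll l) % N = b) with hF
  have hinj : Set.InjOn (fun l => l / N) (F : Finset ℕ) := by
    intro l hl l' hl' hll'
    rw [mem_coe, hF, mem_filter] at hl hl'
    simp only at hll'
    rw [← Nat.div_add_mod l N, ← Nat.div_add_mod l' N, hll', hl.2.1, hl'.2.1]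
  have h1 := h 0 (1 / N) (by positivity) (by rw [sub_zero, div_le_one (by positivity)]; exact hNr)
    (a * Real.logb 2 3 / N - (n - b) / N) (K / N + 1) (F.image (fun l => l / N)) ?_ ?_
  · rw [Finset.card_image_of_injOn hinj, sub_zero] at h1
    refine h1.trans ?_
    push_cast
    have h2 : ((K / N : ℕ) : ℝ) ≤ K / N := Nat.cast_div_le
    have hNi : (1 : ℝ) / N ≤ 1 := by
      rw [div_le_one (by positivity)]; exact hNr
    have hKN : (K : ℝ) / N ≤ K := div_le_self (by positivity) hNr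
    calc (1 / (N : ℝ) + ε) * (((K / N : ℕ) : ℝ) + 1) + C ≤ (1 / N + ε) * (K / N + 1) + C := by
          gcongr
      _ = 1 / (N : ℝ) ^ 2 * K + ε * (K / N) + 1 / N + ε + C := by field_simp; ring
      _ ≤ 1 / (N : ℝ) ^ 2 * K + ε * K + 1 + ε + C := by gcongr
      _ = (1 / (N : ℝ) ^ 2 + ε) * K + (C + 1 + ε) := by ring
  · intro k hk
    rw [mem_image] at hk
    obtain ⟨l, hl, rfl⟩ := hk
    rw [hF, mem_filter, mem_range] at hl
    rw [mem_range]
    have := Nat.div_le_div_right (c := N) hl.1.le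
    omega
  · intro k hk
    rw [mem_image] at hk
    obtain ⟨l, hl, rfl⟩ := hk
    rw [hF, mem_filter, mem_range] at hl
    obtain ⟨hlK, hla, hlb⟩ := hl
    have h3 := hll l hlK
    set j := (n - ll l) / N with hj
    have h4 : n - ll l = N * j + b := by
      rw [hj, ← hlb]; exact (Nat.div_add_mod _ _).symm
    have h5 : (ll l : ℝ) = n - b - N * j := by
      have : n = ll l + (N * j + b) := by omega
      have : (n : ℝ) = ll l + (N * j + b) := by exact_mod_cast this
      linarith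
    have h6 : (l : ℝ) = a + N * ((l / N : ℕ) : ℝ) := by
      have := Nat.div_add_mod l N
      rw [hla] at this
      have : (l : ℝ) = N * ((l / N : ℕ) : ℝ) + a := by exact_mod_cast this.symm
      linarith
    refine ⟨-(j : ℤ), ?_⟩
    have h7 : a * Real.logb 2 3 / N - (n - b) / N + ((l / N : ℕ) : ℝ) * Real.logb 2 3 -
        ((-(j : ℤ) : ℤ) : ℝ) = (l * Real.logb 2 3 - ll l) / N := by
      rw [h5, h6]
      push_cast
      field_simp
      ring
    rw [h7, ← logb_uu]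
    have h8 : 0 ≤ Real.logb 2 (uu l) := Real.logb_nonneg (by norm_num) (one_le_uu l)
    have h9 : Real.logb 2 (uu l) ≤ 1 := by
      rw [Real.logb_le_iff_le_rpow (by norm_num) (by linarith [one_le_uu l]), Real.rpow_one]
      exact (uu_lt_two l).le
    constructor
    · positivity
    · gcongr

theorem equi (N : ℕ) (hN : 1 ≤ N) (ε : ℝ) (hε : 0 < ε) : ∃ K0 : ℕ, ∀ K, K0 ≤ K → ∀ n : ℕ,
    (∀ l < K, ll l ≤ n) → ∀ G : ℕ → ℕ → ℂ, (∀ a b, ‖G a b‖ ≤ 1) →
      (∀ a b, G (a + N) b = G a b) → (∀ a b, G a (b + N) = G a b) →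
        ‖(∑ l ∈ range K, G l (n - ll l)) / K -
          (∑ p ∈ range N ×ˢ range N, G p.1 p.2) / (N : ℂ) ^ 2‖ ≤ ε := by
  classical
  have hNr : (1 : ℝ) ≤ N := by exact_mod_cast hN
  obtain ⟨C, hC, h⟩ := count_ab N hN (ε / (4 * N ^ 2)) (by positivity)
  obtain ⟨K1, hK1⟩ := exists_nat_gt (C / (ε / (4 * N ^ 2)))
  refine ⟨K1 + 1, fun K hK n hll G hG1 hGa hGb => ?_⟩
  have hKr : (0 : ℝ) < K := by exact_mod_cast (by omega : 0 < K)
  have hKc : (K : ℂ) ≠ 0 := by exact_mod_cast hKr.ne'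
  have hNc : (N : ℂ) ≠ 0 := by exact_mod_cast (by linarith : (N : ℝ) ≠ 0)
  set P := range N ×ˢ range N with hP
  set cnt : ℕ × ℕ → ℕ := fun p =>
    ((range K).filter (fun l => l % N = p.1 ∧ (n - ll l) % N = p.2)).card with hcnt
  have hcnt1 : ∀ p ∈ P, (cnt p : ℝ) / K ≤ 1 / (N : ℝ) ^ 2 + ε / (2 * N ^ 2) := by
    intro p hp
    rw [hP, mem_product, mem_range, mem_range] at hp
    rw [div_le_iff₀ hKr]
    refine (h K n hll p.1 hp.1 p.2 hp.2).trans ?_
    have h2 : C ≤ ε / (4 * N ^ 2) * K := by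
      have h3 : (K1 : ℝ) ≤ K := by exact_mod_cast (by omega : K1 ≤ K)
      have h4 := hK1.le.trans h3
      rw [div_le_iff₀ (by positivity)] at h4
      linarith
    calc (1 / (N : ℝ) ^ 2 + ε / (4 * N ^ 2)) * K + C
        ≤ (1 / (N : ℝ) ^ 2 + ε / (4 * N ^ 2)) * K + ε / (4 * N ^ 2) * K := by gcongr
      _ = (1 / (N : ℝ) ^ 2 + ε / (2 * N ^ 2)) * K := by field_simp; ring
  have hmaps : ∀ l ∈ range K, (l % N, (n - ll l) % N) ∈ P := by
    intro l _
    rw [hP, mem_product, mem_range, mem_range]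
    exact ⟨Nat.mod_lt _ hN, Nat.mod_lt _ hN⟩
  have hfib : ∀ p : ℕ × ℕ, (range K).filter (fun l => (l % N, (n - ll l) % N) = p) =
      (range K).filter (fun l => l % N = p.1 ∧ (n - ll l) % N = p.2) := by
    intro p
    refine Finset.filter_congr fun l _ => ?_
    rw [Prod.ext_iff]
  have hsum1 : ∑ p ∈ P, (cnt p : ℝ) / K = 1 := by
    rw [← Finset.sum_div]
    have h1 := Finset.card_eq_sum_card_fiberwise (f := fun l => (l % N, (n - ll l) % N))
      (s := range K) (t := P) (fun l hl => hmaps l hl)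
    rw [card_range] at h1
    simp only [hfib] at h1
    rw [← Nat.cast_sum, ← h1, div_self hKr.ne']
  have hcardP : (P.card : ℝ) = (N : ℝ) ^ 2 := by
    rw [hP, card_product, card_range]
    push_cast; ring
  have hmod : ∀ a b : ℕ, G (a % N) (b % N) = G a b := by
    have ha : ∀ k a b : ℕ, G (a + N * k) b = G a b := by
      intro k
      induction k with
      | zero => intro a b; rw [mul_zero, add_zero]
      | succ k ih => intro a b; rw [Nat.mul_succ, ← add_assoc, hGa, ih]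
    have hb : ∀ k a b : ℕ, G a (b + N * k) = G a b := by
      intro k
      induction k with
      | zero => intro a b; rw [mul_zero, add_zero]
      | succ k ih => intro a b; rw [Nat.mul_succ, ← add_assoc, hGb, ih]
    intro a b
    conv_rhs => rw [← Nat.mod_add_div a N, ← Nat.mod_add_div b N, ha, hb]
  have e1 : (∑ l ∈ range K, G l (n - ll l)) / K = ∑ p ∈ P, ((cnt p : ℝ) / K : ℝ) * G p.1 p.2 := by
    rw [← Finset.sum_fiberwise_of_maps_to hmaps, Finset.sum_div]
    refine Finset.sum_congr rfl fun p _ => ?_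
    rw [hfib]
    have e2 : ∀ l ∈ (range K).filter (fun l => l % N = p.1 ∧ (n - ll l) % N = p.2),
        G l (n - ll l) = G p.1 p.2 := by
      intro l hl
      rw [mem_filter] at hl
      rw [← hmod l, hl.2.1, hl.2.2]
    rw [Finset.sum_congr rfl e2, Finset.sum_const, nsmul_eq_mul]
    push_cast
    rw [hcnt]
    field_simp
  have e2 : (∑ p ∈ P, G p.1 p.2) / (N : ℂ) ^ 2 = ∑ p ∈ P, ((1 / (N : ℝ) ^ 2 : ℝ) : ℂ) * G p.1 p.2 := by
    rw [← Finset.mul_sum]
    push_cast
    rw [one_div, div_eq_inv_mul]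
  rw [e1, e2, ← Finset.sum_sub_distrib]
  have e3 : ∀ p ∈ P, ‖(((cnt p : ℝ) / K : ℝ) : ℂ) * G p.1 p.2 -
      ((1 / (N : ℝ) ^ 2 : ℝ) : ℂ) * G p.1 p.2‖ ≤
        2 * (ε / (2 * N ^ 2)) - ((cnt p : ℝ) / K - 1 / (N : ℝ) ^ 2) := by
    intro p hp
    rw [← sub_mul, norm_mul, ← Complex.ofReal_sub, Complex.norm_real, Real.norm_eq_abs]
    have h1 := hcnt1 p hp
    have h2 : |(cnt p : ℝ) / K - 1 / (N : ℝ) ^ 2| ≤
        2 * (ε / (2 * N ^ 2)) - ((cnt p : ℝ) / K - 1 / (N : ℝ) ^ 2) := by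
      have h3 : 0 ≤ ε / (2 * (N : ℝ) ^ 2) := by positivity
      rw [abs_le]
      constructor <;> linarith
    calc |(cnt p : ℝ) / K - 1 / (N : ℝ) ^ 2| * ‖G p.1 p.2‖
        ≤ |(cnt p : ℝ) / K - 1 / (N : ℝ) ^ 2| * 1 := by gcongr; exact hG1 _ _
      _ ≤ _ := by rw [mul_one]; exact h2
  refine (norm_sum_le _ _).trans ((Finset.sum_le_sum e3).trans (le_of_eq ?_))
  rw [Finset.sum_sub_distrib, Finset.sum_sub_distrib, hsum1, Finset.sum_const, Finset.sum_const,
    nsmul_eq_mul, nsmul_eq_mul, hcardP]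
  field_simp
  ring

end Helper58.DW
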