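import Pool.Agent.Helper58.DW.Equi
import Pool.Agent.Helper58.FH.Mean

set_option autoImplicit false
open MeasureTheory Filter Topology Metric Finset
open Helper58.FX (act UU ev ft Erg T sc PE)
open Helper58.FH (Tor Bx BH)
open scoped ComplexConjugate ENNReal

/-! The window averages at the points of a finite orbit. -/

namespace Helper58.DW

variable {μ : Measure Tor}

lemma mem_atoms {s : ℕ} (hs : MeasurePreserving (T s) μ μ) {x : Tor} (hx : μ {x} ≠ 0) :
    μ {s • x} ≠ 0 := by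
  have h1 := hs.measure_preimage (measurableSet_singleton (s • x)).nullMeasurableSet
  intro h2
  rw [h2] at h1
  apply hx
  refine measure_mono_null ?_ h1
  intro y hy
  rw [Set.mem_singleton_iff] at hy
  subst hy
  rfl

lemma periods [IsProbabilityMeasure μ] (h2 : MeasurePreserving (T 2) μ μ)
    (h3 : MeasurePreserving (T 3) μ μ) (Z : Set Tor) (hZ : Z.Finite) (hZ0 : μ Zᶜ = 0) :
    ∃ N : ℕ, 1 ≤ N ∧ ∀ᵐ x ∂μ, (2 ^ N) • x = x ∧ (3 ^ N) • x = x := by
  classical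
  set S : Set Tor := {x | μ {x} ≠ 0} with hS
  have hSZ : S ⊆ Z := by
    intro x hx
    by_contra h
    exact hx (measure_mono_null (Set.singleton_subset_iff.2 h) hZ0)
  have hSf : S.Finite := hZ.subset hSZ
  have hS0 : μ Sᶜ = 0 := by
    have h1 : Sᶜ ⊆ Zᶜ ∪ (Z ∩ Sᶜ) := by
      intro x hx
      by_cases hxZ : x ∈ Z
      · exact Or.inr ⟨hxZ, hx⟩
      · exact Or.inl hxZ
    refine measure_mono_null h1 (measure_union_null hZ0 ?_)
    have h4 : Z ∩ Sᶜ = ⋃ x ∈ Z ∩ Sᶜ, {x} := (Set.biUnion_of_singleton _).symm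
    rw [h4]
    refine (measure_biUnion_null_iff (hZ.inter_of_left _).countable).2 ?_
    intro x hx
    by_contra h
    exact hx.2 h
  have : Fintype S := hSf.fintype
  have hperm : ∀ s : ℕ, MeasurePreserving (T s) μ μ →
      ∃ g : Equiv.Perm S, ∀ x : S, ((g x : S) : Tor) = s • (x : Tor) := by
    intro s hs
    set f : S → S := fun x => ⟨s • (x : Tor), mem_atoms hs x.2⟩ with hf
    have hsurj : Function.Surjective f := by
      intro y
      by_contra hcon
      push Not at hcon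
      have h1 := hs.measure_preimage (measurableSet_singleton (y : Tor)).nullMeasurableSet
      apply y.2
      rw [← h1]
      refine measure_mono_null ?_ hS0
      intro x hx hxS
      exact hcon ⟨x, hxS⟩ (Subtype.ext hx)
    exact ⟨Equiv.ofBijective f ⟨Finite.injective_iff_surjective.2 hsurj, hsurj⟩, fun x => rfl⟩
  set N := Fintype.card (Equiv.Perm S) with hN
  have hper : ∀ s : ℕ, MeasurePreserving (T s) μ μ → ∀ x ∈ S, (s ^ N) • x = x := by
    intro s hs x hx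
    obtain ⟨g, hg⟩ := hperm s hs
    have h1 : ∀ k : ℕ, ∀ y : S, (((g ^ k) y : S) : Tor) = (s ^ k) • (y : Tor) := by
      intro k
      induction k with
      | zero => intro y; simp
      | succ k ih =>
        intro y
        rw [pow_succ', Equiv.Perm.mul_apply, hg, ih, smul_smul, pow_succ']
    have h4 := h1 N ⟨x, hx⟩
    rw [hN, pow_card_eq_one] at h4
    exact h4.symm
  refine ⟨N, Fintype.card_pos, ?_⟩
  have : ∀ᵐ x ∂μ, x ∈ S := by
    rw [ae_iff]
    exact hS0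
  filter_upwards [this] with x hx
  exact ⟨hper 2 h2 x hx, hper 3 h3 x hx⟩

lemma mean_sq_tendsto [IsProbabilityMeasure μ] (h2 : MeasurePreserving (T 2) μ μ)
    (h3 : MeasurePreserving (T 3) μ μ) (hE : Erg (ft μ)) (k : ℕ) :
    Tendsto (fun L : ℕ => ∫ x, ‖Bx k L L x - ft μ k‖ ^ 2 ∂μ) atTop (𝓝 0) := by
  have hUV := Helper58.FX.St.commute_UU h2 h3
  set c := ft μ k with hc
  have h1 := Helper58.FX.St.mean_ergodic hUV (α := 1) (β := 1) (by simp) (by simp) (ev μ k)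
  rw [Helper58.FXP.H85.PE_ev h2 h3 hE] at h1
  have h4 : Tendsto (fun L : ℕ => ‖BH (UU h2) (UU h3) L L (ev μ k) - c • ev μ 0‖) atTop (𝓝 0) := by
    have h5 : Tendsto (fun L : ℕ => ((L : ℂ) ^ 2)⁻¹ •
        ∑ s ∈ Helper58.FX.box L, ((conj (1 : ℂ)) ^ s.1 * (conj (1 : ℂ)) ^ s.2) • act (UU h2) (UU h3) s (ev μ k)
          - c • ev μ 0) atTop (𝓝 (c • ev μ 0 - c • ev μ 0)) := h1.sub_const _
    rw [sub_self] at h5
    have h6 := h5.norm
    rw [norm_zero] at h6
    refine h6.congr' ?_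
    filter_upwards [eventually_ge_atTop 1] with L hL
    congr 2
    unfold BH
    rw [pow_two]
    congr 1
    unfold Helper58.FX.box
    refine Finset.sum_congr rfl fun s _ => ?_
    simp
  have h5 := h4.pow 2
  rw [zero_pow (by norm_num)] at h5
  refine h5.congr fun L => ?_
  rw [Helper58.FH.integral_Bx h2 h3]

lemma sum_periodic (N : ℕ) (f : ℕ → ℂ) (hf : ∀ a, f (a + N) = f a) (j : ℕ) :
    ∑ a ∈ range (N * j), f a = j * ∑ a ∈ range N, f a := by
  have h : ∀ j a : ℕ, f (N * j + a) = f a := by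
    intro j
    induction j with
    | zero => intro a; rw [mul_zero, zero_add]
    | succ j ih => intro a; rw [Nat.mul_succ, add_assoc, add_comm N a, ← add_assoc, hf, ih]
  induction j with
  | zero => simp
  | succ j ih =>
    rw [Nat.mul_succ, Finset.sum_range_add, ih]
    simp only [h]
    push_cast
    ring

lemma box_periodic (k N j : ℕ) (hN : 1 ≤ N) (hj : 1 ≤ j) (x : Tor) (h2 : (2 ^ N) • x = x)
    (h3 : (3 ^ N) • x = x) : Bx k (N * j) (N * j) x = Bx k N N x := by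
  have hNc : (N : ℂ) ≠ 0 := by exact_mod_cast (by omega : N ≠ 0)
  have hjc : (j : ℂ) ≠ 0 := by exact_mod_cast (by omega : j ≠ 0)
  have e : ∀ a b : ℕ, (fourier ((k : ℤ) * (2 ^ a * 3 ^ b)) x : ℂ) =
      fourier (k : ℤ) ((2 ^ a * 3 ^ b) • x) := by
    intro a b
    rw [Helper58.FH.fourier_nsmul]
    congr 2
    push_cast
    ring
  have hp2 : ∀ a b : ℕ, (fourier ((k : ℤ) * (2 ^ (a + N) * 3 ^ b)) x : ℂ) =
      fourier ((k : ℤ) * (2 ^ a * 3 ^ b)) x := by
    intro a b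
    rw [e, e, pow_add, show 2 ^ a * 2 ^ N * 3 ^ b = 2 ^ a * 3 ^ b * 2 ^ N by ring,
      mul_smul _ (2 ^ N), h2]
  have hp3 : ∀ a b : ℕ, (fourier ((k : ℤ) * (2 ^ a * 3 ^ (b + N))) x : ℂ) =
      fourier ((k : ℤ) * (2 ^ a * 3 ^ b)) x := by
    intro a b
    rw [e, e, pow_add, ← mul_assoc, mul_smul _ (3 ^ N), h3]
  unfold Bx
  rw [Finset.sum_product, Finset.sum_product]
  have h4 : ∀ a : ℕ, ∑ b ∈ range (N * j), (fourier ((k : ℤ) * (2 ^ a * 3 ^ b)) x : ℂ) =
      j * ∑ b ∈ range N, (fourier ((k : ℤ) * (2 ^ a * 3 ^ b)) x : ℂ) := fun a =>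
    sum_periodic N (fun b => (fourier ((k : ℤ) * (2 ^ a * 3 ^ b)) x : ℂ)) (fun b => hp3 a b) j
  simp only [h4]
  rw [← Finset.mul_sum, sum_periodic N
    (fun a => ∑ b ∈ range N, (fourier ((k : ℤ) * (2 ^ a * 3 ^ b)) x : ℂ))
    (fun a => Finset.sum_congr rfl fun b _ => hp2 a b) j]
  push_cast
  field_simp

lemma box_eq [IsProbabilityMeasure μ] (h2 : MeasurePreserving (T 2) μ μ)
    (h3 : MeasurePreserving (T 3) μ μ) (hE : Erg (ft μ)) (N : ℕ) (hN : 1 ≤ N)
    (hper : ∀ᵐ x ∂μ, (2 ^ N) • x = x ∧ (3 ^ N) • x = x) (k : ℕ) :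
    ∀ᵐ x ∂μ, Bx k N N x = ft μ k := by
  have h1 := mean_sq_tendsto h2 h3 hE k
  have h4 : Tendsto (fun j : ℕ => N * (j + 1)) atTop atTop :=
    tendsto_atTop_mono (fun j => (Nat.le_succ j).trans
      (Nat.le_mul_of_pos_left _ (by omega))) tendsto_id
  have h5 := h1.comp h4
  have h6 : ∀ j : ℕ, ∫ x, ‖Bx k (N * (j + 1)) (N * (j + 1)) x - ft μ k‖ ^ 2 ∂μ =
      ∫ x, ‖Bx k N N x - ft μ k‖ ^ 2 ∂μ := by
    intro j
    refine integral_congr_ae ?_
    filter_upwards [hper] with x hx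
    rw [box_periodic k N (j + 1) hN (by omega) x hx.1 hx.2]
  have h7 : ∫ x, ‖Bx k N N x - ft μ k‖ ^ 2 ∂μ = 0 := by
    refine tendsto_nhds_unique (tendsto_const_nhds.congr fun j => ?_) h5
    exact (h6 j).symm
  rw [integral_eq_zero_iff_of_nonneg (fun x => by positivity)
    (Helper58.FH.integrable_Bx k N N (ft μ k))] at h7
  filter_upwards [h7] with x hx
  have h8 : ‖Bx k N N x - ft μ k‖ ^ 2 = 0 := hx
  rw [← sub_eq_zero, ← norm_eq_zero]
  exact pow_eq_zero_iff (by norm_num) |>.1 h8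

theorem finite_conv [IsProbabilityMeasure μ] (h2 : MeasurePreserving (T 2) μ μ)
    (h3 : MeasurePreserving (T 3) μ μ) (hE : Erg (ft μ)) (Z : Set Tor) (hZ : Z.Finite)
    (hZ0 : μ Zᶜ = 0) (k : ℕ) (η : ℝ) (hη : 0 < η) : ∃ K0 : ℕ, ∀ K, K0 ≤ K → ∀ n : ℕ,
      (∀ l < K, ll l ≤ n) → ∀ᵐ x ∂μ,
        ‖(∑ l ∈ range K, (fourier (k : ℤ) (sq n l • x) : ℂ)) / K - ft μ k‖ ≤ η := by
  obtain ⟨N, hN, hper⟩ := periods h2 h3 Z hZ hZ0
  obtain ⟨K0, hK0⟩ := equi N hN η hη
  refine ⟨K0, fun K hK n hll => ?_⟩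
  filter_upwards [hper, box_eq h2 h3 hE N hN hper k] with x hx hbx
  have h1 := hK0 K hK n hll (fun a b => (fourier (k : ℤ) ((3 ^ a * 2 ^ b) • x) : ℂ))
    (fun a b => (Helper58.FH.norm_fourier _ _).le) ?_ ?_
  · have e : (∑ p ∈ range N ×ˢ range N, (fourier (k : ℤ) ((3 ^ p.1 * 2 ^ p.2) • x) : ℂ)) /
        (N : ℂ) ^ 2 = ft μ k := by
      rw [← hbx]
      unfold Bx
      rw [Finset.sum_product, Finset.sum_comm, ← Finset.sum_product', div_eq_inv_mul, pow_two]
      congr 1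
      refine Finset.sum_congr rfl fun p _ => ?_
      rw [Helper58.FH.fourier_nsmul]
      congr 2
      push_cast
      ring
    rw [e] at h1
    exact h1
  · intro a b
    rw [pow_add, show 3 ^ a * 3 ^ N * 2 ^ b = 3 ^ a * 2 ^ b * 3 ^ N by ring,
      mul_smul _ (3 ^ N), hx.2]
  · intro a b
    rw [pow_add, ← mul_assoc, mul_smul _ (2 ^ N), hx.1]

end Helper58.DW
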