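import Pool.Agent.Helper58.DW.Near
import Pool.Agent.Helper58.FH.Av

set_option autoImplicit false
open MeasureTheory Filter Topology Metric Finset
open scoped ComplexConjugate
open Helper58.FH (Tor)

/-! The windows are Sidon sets; the fourth moment for Lebesgue measure. -/

namespace Helper58.DW

lemma sidon_aux (n a b c d : ℕ) (hab : a ≤ b) (hcd : c ≤ d)
    (h : sq n a + sq n b = sq n c + sq n d) : c ≤ a := by
  by_contra hac
  rw [not_le] at hac
  have h1 : 3 ^ (a + 1) ∣ sq n c := (pow_dvd_pow 3 (by omega)).trans (three_dvd_sq n c)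
  have h2 : 3 ^ (a + 1) ∣ sq n d := (pow_dvd_pow 3 (by omega)).trans (three_dvd_sq n d)
  have h3 : 3 ^ (a + 1) ∣ sq n a + sq n b := by
    rw [h]; exact dvd_add h1 h2
  rcases Nat.lt_or_ge a b with hlt | hge
  · have h4 : 3 ^ (a + 1) ∣ sq n b := (pow_dvd_pow 3 (by omega)).trans (three_dvd_sq n b)
    exact not_three_dvd_sq n a ((Nat.dvd_add_left h4).1 h3)
  · have hba : b = a := by omega
    rw [hba, ← two_mul] at h3
    have h5 : Nat.Coprime (3 ^ (a + 1)) 2 := Nat.Coprime.pow_left _ (by norm_num)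
    exact not_three_dvd_sq n a (h5.dvd_of_dvd_mul_left h3)

lemma sidon_le (n a b c d : ℕ) (hab : a ≤ b) (hcd : c ≤ d)
    (h : sq n a + sq n b = sq n c + sq n d) : a = c ∧ b = d := by
  have h1 := sidon_aux n a b c d hab hcd h
  have h2 := sidon_aux n c d a b hcd hab h.symm
  have h3 : a = c := le_antisymm h2 h1
  subst h3
  exact ⟨rfl, sq_inj n (by omega)⟩

lemma sidon (n a b c d : ℕ) (h : sq n a + sq n b = sq n c + sq n d) :
    (c, d) = (a, b) ∨ (c, d) = (b, a) := by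
  rcases le_total a b with hab | hab <;> rcases le_total c d with hcd | hcd
  · obtain ⟨h1, h2⟩ := sidon_le n a b c d hab hcd h
    left; rw [h1, h2]
  · obtain ⟨h1, h2⟩ := sidon_le n a b d c hab hcd (by rw [h, add_comm])
    right; rw [h1, h2]
  · obtain ⟨h1, h2⟩ := sidon_le n b a c d hab hcd (by rw [← h, add_comm])
    right; rw [h1, h2]
  · obtain ⟨h1, h2⟩ := sidon_le n b a d c hab hcd (by rw [add_comm, h, add_comm])
    left; rw [h1, h2]

lemma second_moment {ι : Type*} [DecidableEq ι] (I : Finset ι) (v : ι → ℤ) (B : ℕ)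
    (hB : ∀ i ∈ I, (I.filter (fun j => v j = v i)).card ≤ B) :
    ∫ x, ‖∑ i ∈ I, (fourier (v i) x : ℂ)‖ ^ 2 ∂(volume : Measure Tor) ≤ B * I.card := by
  classical
  have hint : ∀ f : Tor → ℂ, Continuous f → Integrable f (volume : Measure Tor) := fun f hf =>
    Helper17.TranslM.integrable_cont _ hf
  have e1 : ∀ x : Tor, ((‖∑ i ∈ I, (fourier (v i) x : ℂ)‖ ^ 2 : ℝ) : ℂ) =
      ∑ i ∈ I, ∑ j ∈ I, (fourier (v i - v j) x : ℂ) := by
    intro x
    rw [← Complex.normSq_eq_norm_sq, ← Complex.mul_conj, map_sum, Finset.sum_mul_sum]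
    refine Finset.sum_congr rfl fun i _ => Finset.sum_congr rfl fun j _ => ?_
    rw [sub_eq_add_neg, fourier_add, fourier_neg]
  have e2 : ((∫ x, ‖∑ i ∈ I, (fourier (v i) x : ℂ)‖ ^ 2 ∂(volume : Measure Tor) : ℝ) : ℂ) =
      ∑ i ∈ I, ∑ j ∈ I, (if v j = v i then (1 : ℂ) else 0) := by
    rw [← integral_complex_ofReal]
    simp only [e1]
    rw [integral_finsetSum _ (fun i _ => hint _ (by fun_prop))]
    refine Finset.sum_congr rfl fun i _ => ?_
    rw [integral_finsetSum _ (fun j _ => hint _ (by fun_prop))]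
    refine Finset.sum_congr rfl fun j _ => ?_
    by_cases h : v j = v i
    · rw [if_pos h, h, sub_self]
      have hp : IsProbabilityMeasure (volume : Measure Tor) := Helper17.TranslM.instProb
      simp
    · rw [if_neg h, Helper17.TranslM.integral_fourier_vol (sub_ne_zero.2 (Ne.symm h))]
  have e3 : (∫ x, ‖∑ i ∈ I, (fourier (v i) x : ℂ)‖ ^ 2 ∂(volume : Measure Tor)) =
      ∑ i ∈ I, (((I.filter (fun j => v j = v i)).card : ℕ) : ℝ) := by
    have e4 : ((∑ i ∈ I, (((I.filter (fun j => v j = v i)).card : ℕ) : ℝ) : ℝ) : ℂ) =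
        ∑ i ∈ I, ∑ j ∈ I, (if v j = v i then (1 : ℂ) else 0) := by
      push_cast
      refine Finset.sum_congr rfl fun i _ => ?_
      rw [Finset.sum_boole]
    rw [← e4] at e2
    exact_mod_cast e2
  rw [e3]
  refine (Finset.sum_le_sum fun i hi => (by exact_mod_cast hB i hi :
    (((I.filter (fun j => v j = v i)).card : ℕ) : ℝ) ≤ (B : ℝ))).trans (le_of_eq ?_)
  rw [Finset.sum_const, nsmul_eq_mul, mul_comm]

lemma fourth_moment (n K : ℕ) (m : ℕ) (hm : 1 ≤ m) :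
    ∫ x, ‖∑ l ∈ range K, (fourier (m : ℤ) (sq n l • x) : ℂ)‖ ^ 4 ∂(volume : Measure Tor) ≤
      2 * (K : ℝ) ^ 2 := by
  classical
  have h1 := second_moment (range K ×ˢ range K)
    (fun p : ℕ × ℕ => ((m : ℤ) * ((sq n p.1 + sq n p.2 : ℕ) : ℤ))) 2 ?_
  · rw [card_product, card_range] at h1
    push_cast at h1
    refine le_trans (le_of_eq ?_) (h1.trans (le_of_eq (by ring)))
    refine integral_congr_ae (Eventually.of_forall fun x => ?_)
    show ‖∑ l ∈ range K, (fourier (m : ℤ) (sq n l • x) : ℂ)‖ ^ 4 =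
      ‖∑ p ∈ range K ×ˢ range K, (fourier ((m : ℤ) * ((sq n p.1 : ℤ) + (sq n p.2 : ℤ))) x : ℂ)‖ ^ 2
    have e : ∑ p ∈ range K ×ˢ range K,
        (fourier ((m : ℤ) * ((sq n p.1 : ℤ) + (sq n p.2 : ℤ))) x : ℂ) =
        (∑ l ∈ range K, (fourier (m : ℤ) (sq n l • x) : ℂ)) ^ 2 := by
      rw [pow_two, Finset.sum_mul_sum, Finset.sum_product]
      refine Finset.sum_congr rfl fun i _ => Finset.sum_congr rfl fun j _ => ?_
      rw [mul_add, fourier_add, Helper58.FH.fourier_nsmul, Helper58.FH.fourier_nsmul]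
      rw [mul_comm (m : ℤ), mul_comm (m : ℤ)]
    rw [e, norm_pow]
    ring
  · rintro ⟨a, b⟩ _
    refine (card_le_card (t := {(a, b), (b, a)}) ?_).trans (card_le_two)
    rintro ⟨c, d⟩ hcd
    rw [mem_filter] at hcd
    obtain ⟨_, hcd⟩ := hcd
    simp only at hcd
    have hm' : (m : ℤ) ≠ 0 := by omega
    have h2 := mul_left_cancel₀ hm' hcd
    have h3 : sq n a + sq n b = sq n c + sq n d := by exact_mod_cast h2.symm
    rw [mem_insert, mem_singleton]
    exact sidon n a b c d h3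

lemma cheb4 (n K : ℕ) (hK : 1 ≤ K) (m : ℕ) (hm : 1 ≤ m) (η : ℝ) (hη : 0 < η) :
    (volume : Measure Tor).real
      {x | η ≤ ‖(∑ l ∈ range K, (fourier (m : ℤ) (sq n l • x) : ℂ)) / K‖} ≤
      2 / (η ^ 4 * (K : ℝ) ^ 2) := by
  have hp : IsProbabilityMeasure (volume : Measure Tor) := Helper17.TranslM.instProb
  have hKr : (0 : ℝ) < K := by exact_mod_cast hK
  have hc : Continuous fun x : Tor =>
      ‖∑ l ∈ range K, (fourier (m : ℤ) (sq n l • x) : ℂ)‖ ^ 4 := by fun_prop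
  have h1 := mul_meas_ge_le_integral_of_nonneg (μ := (volume : Measure Tor))
    (f := fun x : Tor => ‖∑ l ∈ range K, (fourier (m : ℤ) (sq n l • x) : ℂ)‖ ^ 4)
    (Eventually.of_forall fun x => by positivity)
    (Helper17.TranslM.integrable_cont _ hc) ((η * K) ^ 4)
  have h2 : (volume : Measure Tor).real
      {x | η ≤ ‖(∑ l ∈ range K, (fourier (m : ℤ) (sq n l • x) : ℂ)) / K‖} ≤
      (volume : Measure Tor).real
        {x | (η * K) ^ 4 ≤ ‖∑ l ∈ range K, (fourier (m : ℤ) (sq n l • x) : ℂ)‖ ^ 4} := by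
    refine measureReal_mono ?_ (measure_ne_top _ _)
    intro x hx
    simp only [Set.mem_ofPred_eq] at hx ⊢
    rw [norm_div, Complex.norm_natCast, le_div_iff₀ hKr] at hx
    gcongr
  have h3 := h1.trans (fourth_moment n K m hm)
  rw [le_div_iff₀ (by positivity)]
  calc (volume : Measure Tor).real
        {x | η ≤ ‖(∑ l ∈ range K, (fourier (m : ℤ) (sq n l • x) : ℂ)) / K‖} * (η ^ 4 * (K : ℝ) ^ 2)
      ≤ (volume : Measure Tor).real
        {x | (η * K) ^ 4 ≤ ‖∑ l ∈ range K, (fourier (m : ℤ) (sq n l • x) : ℂ)‖ ^ 4} *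
          (η ^ 4 * (K : ℝ) ^ 2) := by gcongr
    _ = ((η * K) ^ 4 * (volume : Measure Tor).real
        {x | (η * K) ^ 4 ≤ ‖∑ l ∈ range K, (fourier (m : ℤ) (sq n l • x) : ℂ)‖ ^ 4}) / K ^ 2 := by
        field_simp
    _ ≤ (2 * (K : ℝ) ^ 2) / K ^ 2 := by gcongr
    _ = 2 := by field_simp

lemma summable_leb (m : ℕ) (hm : 1 ≤ m) (η : ℝ) (hη : 0 < η) :
    Summable fun n : ℕ => (volume : Measure Tor).real
      {x | η ≤ ‖(∑ l ∈ range (Kn n (n + 1)),
        (fourier (m : ℤ) (sq n l • x) : ℂ)) / (Kn n (n + 1) : ℕ)‖} := by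
  have h1 : Summable fun n : ℕ => 2 / (η ^ 4) * (16 * (1 / ((n : ℝ) ^ 2))) :=
    ((Real.summable_one_div_nat_pow.2 (by norm_num)).mul_left _).mul_left _
  rw [← summable_nat_add_iff 4] at h1 ⊢
  refine Summable.of_nonneg_of_le (fun n => measureReal_nonneg) (fun n => ?_) h1
  have h2 : (n + 4) / 2 ≤ Kn (n + 4) (n + 4 + 1) := Kn_ge _ _ _ (by omega) (by omega)
  have h3 : n + 4 ≤ 4 * Kn (n + 4) (n + 4 + 1) := by omega
  have h4 : 1 ≤ Kn (n + 4) (n + 4 + 1) := by omega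
  have h5 : ((n + 4 : ℕ) : ℝ) ≤ 4 * (Kn (n + 4) (n + 4 + 1) : ℕ) := by exact_mod_cast h3
  have h6 : (0 : ℝ) < ((n + 4 : ℕ) : ℝ) := by positivity
  have h7 : (0 : ℝ) < (Kn (n + 4) (n + 4 + 1) : ℕ) := by exact_mod_cast h4
  refine (cheb4 (n + 4) _ h4 m hm η hη).trans ?_
  rw [show (2 : ℝ) / (η ^ 4 * ((Kn (n + 4) (n + 4 + 1) : ℕ) : ℝ) ^ 2) =
    2 / η ^ 4 * (1 / ((Kn (n + 4) (n + 4 + 1) : ℕ) : ℝ) ^ 2) by field_simp]
  gcongr
  rw [mul_one_div, div_le_div_iff₀ (by positivity) (by positivity)]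
  nlinarith

end Helper58.DW
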