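import Pool.Agent.Helper58.DW.Pair
import Pool.Agent.Helper17.TranslM
import Pool.Agent.Helper58.FX.Defs

set_option autoImplicit false
open MeasureTheory Filter Topology Metric Finset
open scoped ComplexConjugate
open Helper58.FX (ft)
open Helper58.FH (Tor)

/-! If finitely many Fourier averages are close to the Fourier coefficients of a measure carried,
up to a small part, by a finite union of arcs, then most of the points lie near these arcs. -/

namespace Helper58.DW

lemma approx (g : C(Tor, ℂ)) (ε : ℝ) (hε : 0 < ε) : ∃ (m0 : ℕ) (c : ℤ → ℂ), ∀ x : Tor,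
    ‖g x - ∑ m ∈ Finset.Icc (-(m0 : ℤ)) m0, c m * fourier m x‖ ≤ ε := by
  classical
  have hgm : g ∈ (Submodule.span ℂ (Set.range (fourier (T := (1 : ℝ))))).topologicalClosure := by
    rw [span_fourier_closure_eq_top]; trivial
  have hgm' : g ∈ closure ((Submodule.span ℂ (Set.range (fourier (T := (1 : ℝ)))) :
      Submodule ℂ C(Tor, ℂ)) : Set C(Tor, ℂ)) := hgm
  obtain ⟨P, hP, hPg⟩ := Metric.mem_closure_iff.1 hgm' ε hε
  obtain ⟨c0, hc0⟩ := Finsupp.mem_span_range_iff_exists_finsupp.1 hP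
  rw [dist_eq_norm] at hPg
  set m0 : ℕ := c0.support.sup Int.natAbs with hm0
  have hsub : c0.support ⊆ Finset.Icc (-(m0 : ℤ)) m0 := by
    intro m hm
    have := Finset.le_sup (f := Int.natAbs) hm
    rw [Finset.mem_Icc]
    omega
  have hPx : ∀ x : Tor, P x = ∑ m ∈ Finset.Icc (-(m0 : ℤ)) m0, c0 m * fourier m x := by
    intro x
    rw [← hc0, Finsupp.sum_of_support_subset _ hsub _ (by simp)]
    rw [ContinuousMap.sum_apply]
    rfl
  refine ⟨m0, fun m => c0 m, fun x => ?_⟩
  rw [← hPx]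
  exact ((g - P).norm_coe_le_norm x).trans hPg.le

variable {ν : Measure Tor}

lemma ft_neg' (m : ℤ) : ft ν (-m) = conj (ft ν m) := by
  unfold ft
  rw [← integral_conj]
  refine integral_congr_ae (Eventually.of_forall fun x => ?_)
  simp only [fourier_neg]

lemma transfer [IsProbabilityMeasure ν] (g : C(Tor, ℂ)) (ε : ℝ) (hε : 0 < ε) :
    ∃ (m0 : ℕ) (δ : ℝ), 0 < δ ∧ ∀ K : ℕ, 1 ≤ K → ∀ y : ℕ → Tor,
      (∀ m : ℕ, 1 ≤ m → m ≤ m0 →
        ‖(∑ l ∈ range K, (fourier (m : ℤ) (y l) : ℂ)) / K - ft ν m‖ < δ) →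
      ‖(∑ l ∈ range K, g (y l)) / K - ∫ x, g x ∂ν‖ ≤ ε := by
  classical
  obtain ⟨m0, c, hc⟩ := approx g (ε / 3) (by positivity)
  set B := ∑ m ∈ Finset.Icc (-(m0 : ℤ)) m0, ‖c m‖ with hB
  have hB0 : 0 ≤ B := Finset.sum_nonneg fun _ _ => norm_nonneg _
  refine ⟨m0, ε / (3 * (B + 1)), by positivity, fun K hK y hy => ?_⟩
  have hKr : (0 : ℝ) < K := by exact_mod_cast hK
  have hKc : (K : ℂ) ≠ 0 := by exact_mod_cast hKr.ne'
  set P : Tor → ℂ := fun x => ∑ m ∈ Finset.Icc (-(m0 : ℤ)) m0, c m * fourier m x with hP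
  have hint : ∀ f : Tor → ℂ, Continuous f → Integrable f ν := fun f hf =>
    Helper17.TranslM.integrable_cont ν hf
  have hPc : Continuous P := by rw [hP]; fun_prop
  have hall : ∀ m ∈ Finset.Icc (-(m0 : ℤ)) m0,
      ‖(∑ l ∈ range K, (fourier m (y l) : ℂ)) / K - ft ν m‖ ≤ ε / (3 * (B + 1)) := by
    intro m hm
    rw [Finset.mem_Icc] at hm
    rcases lt_trichotomy m 0 with h | h | h
    · have h1 := hy (-m).toNat (by omega) (by omega)
      have e : (((-m).toNat : ℕ) : ℤ) = -m := by omega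
      rw [e] at h1
      have h2 : (∑ l ∈ range K, (fourier m (y l) : ℂ)) / K - ft ν m =
          conj ((∑ l ∈ range K, (fourier (-m) (y l) : ℂ)) / K - ft ν (-m)) := by
        rw [map_sub, map_div₀, map_sum, ← ft_neg', neg_neg, Complex.conj_natCast]
        congr 2
        refine Finset.sum_congr rfl fun l _ => ?_
        rw [← fourier_neg, neg_neg]
      rw [h2, RCLike.norm_conj]
      exact h1.le
    · subst h
      have h1 : ft ν 0 = 1 := by
        unfold ft; simp
      rw [h1]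
      simp only [fourier_zero, sum_const, card_range, nsmul_eq_mul, mul_one]
      rw [div_self hKc, sub_self, norm_zero]
      positivity
    · have h1 := hy m.toNat (by omega) (by omega)
      have e : ((m.toNat : ℕ) : ℤ) = m := by omega
      rw [e] at h1
      exact h1.le
  have h1 : ‖(∑ l ∈ range K, g (y l)) / K - (∑ l ∈ range K, P (y l)) / K‖ ≤ ε / 3 := by
    rw [← sub_div, ← Finset.sum_sub_distrib, norm_div, Complex.norm_natCast, div_le_iff₀ hKr]
    refine (norm_sum_le _ _).trans ((Finset.sum_le_sum fun l _ => hc (y l)).trans (le_of_eq ?_))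
    rw [Finset.sum_const, card_range, nsmul_eq_mul, mul_comm]
  have h2 : ‖∫ x, P x ∂ν - ∫ x, g x ∂ν‖ ≤ ε / 3 := by
    rw [← integral_sub (hint _ hPc) (hint _ g.continuous)]
    have := norm_integral_le_of_norm_le_const (μ := ν) (C := ε / 3)
      (f := fun x => P x - g x) (Filter.Eventually.of_forall fun x => by
        rw [norm_sub_rev]; exact hc x)
    simpa using this
  have h3 : ‖(∑ l ∈ range K, P (y l)) / K - ∫ x, P x ∂ν‖ ≤ ε / 3 := by
    have e1 : (∑ l ∈ range K, P (y l)) / K =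
        ∑ m ∈ Finset.Icc (-(m0 : ℤ)) m0, c m * ((∑ l ∈ range K, (fourier m (y l) : ℂ)) / K) := by
      rw [hP]
      simp only
      rw [Finset.sum_comm, Finset.sum_div]
      refine Finset.sum_congr rfl fun m _ => ?_
      rw [← Finset.mul_sum, mul_div_assoc]
    have e2 : ∫ x, P x ∂ν = ∑ m ∈ Finset.Icc (-(m0 : ℤ)) m0, c m * ft ν m := by
      rw [hP]
      rw [integral_finsetSum _ (fun m _ => hint _ (by fun_prop))]
      refine Finset.sum_congr rfl fun m _ => ?_
      rw [integral_const_mul]; rfl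
    rw [e1, e2, ← Finset.sum_sub_distrib]
    refine (norm_sum_le _ _).trans ?_
    have e3 : ∀ m ∈ Finset.Icc (-(m0 : ℤ)) m0,
        ‖c m * ((∑ l ∈ range K, (fourier m (y l) : ℂ)) / K) - c m * ft ν m‖ ≤
          ‖c m‖ * (ε / (3 * (B + 1))) := by
      intro m hm
      rw [← mul_sub, norm_mul]
      exact mul_le_mul_of_nonneg_left (hall m hm) (norm_nonneg _)
    refine (Finset.sum_le_sum e3).trans ?_
    rw [← Finset.sum_mul, ← hB]
    rw [mul_div_assoc', div_le_iff₀ (by positivity)]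
    nlinarith
  have e : (∑ l ∈ range K, g (y l)) / K - ∫ x, g x ∂ν =
      ((∑ l ∈ range K, g (y l)) / K - (∑ l ∈ range K, P (y l)) / K) +
      ((∑ l ∈ range K, P (y l)) / K - ∫ x, P x ∂ν) + (∫ x, P x ∂ν - ∫ x, g x ∂ν) := by ring
  rw [e]
  refine (norm_add₃_le).trans ?_
  linarith

lemma near [IsProbabilityMeasure ν] (A : Finset Tor) (ρ : ℝ) (hρ : 0 < ρ)
    (hA : 31 / 32 ≤ ν.real (⋃ a ∈ A, closedBall a ρ)) :
    ∃ (m0 : ℕ) (δ : ℝ), 0 < δ ∧ ∀ K : ℕ, 1 ≤ K → ∀ y : ℕ → Tor,
      (∀ m : ℕ, 1 ≤ m → m ≤ m0 →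
        ‖(∑ l ∈ range K, (fourier (m : ℤ) (y l) : ℂ)) / K - ft ν m‖ < δ) →
      ∀ F : Finset ℕ, F ⊆ range K → (∀ l ∈ F, y l ∉ ⋃ a ∈ A, closedBall a (2 * ρ)) →
        4 * F.card ≤ K := by
  classical
  have hA0 : A.Nonempty := by
    by_contra h
    rw [Finset.not_nonempty_iff_eq_empty] at h
    rw [h] at hA
    simp at hA
    linarith
  set B := ⋃ a ∈ A, closedBall a ρ with hB
  have hBc : IsClosed B := by
    rw [hB]
    exact isClosed_biUnion_finset fun a _ => isClosed_closedBall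
  set f : Tor → ℝ := fun y => min 1 (max 0 (infDist y (A : Set Tor) / ρ - 1)) with hf
  have hfc : Continuous f := by
    rw [hf]
    have : Continuous fun y : Tor => infDist y (A : Set Tor) := continuous_infDist_pt _
    fun_prop
  have hf0 : ∀ y, 0 ≤ f y := fun y => le_min zero_le_one (le_max_left _ _)
  have hf1 : ∀ y, f y ≤ 1 := fun y => min_le_left _ _
  have hfB : ∀ y ∈ B, f y = 0 := by
    intro y hy
    rw [hB, Set.mem_iUnion₂] at hy
    obtain ⟨a, ha, hya⟩ := hy
    have h1 : infDist y (A : Set Tor) ≤ ρ :=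
      (infDist_le_dist_of_mem (mem_coe.2 ha)).trans (mem_closedBall.1 hya)
    have h2 : infDist y (A : Set Tor) / ρ - 1 ≤ 0 := by
      rw [sub_nonpos, div_le_one hρ]; exact h1
    rw [hf]
    simp only
    rw [max_eq_left h2]
    simp
  have hfU : ∀ y, y ∉ ⋃ a ∈ A, closedBall a (2 * ρ) → f y = 1 := by
    intro y hy
    have h1 : 2 * ρ ≤ infDist y (A : Set Tor) := by
      rw [le_infDist (by exact_mod_cast hA0)]
      intro a ha
      by_contra hcon
      exact hy (Set.mem_iUnion₂.2 ⟨a, mem_coe.1 ha, mem_closedBall.2 (not_le.1 hcon).le⟩)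
    have h2 : 1 ≤ infDist y (A : Set Tor) / ρ - 1 := by
      rw [le_sub_iff_add_le, le_div_iff₀ hρ]; linarith
    rw [hf]
    simp only
    rw [max_eq_right (by linarith), min_eq_left h2]
  set g : C(Tor, ℂ) := ⟨fun x => ((f x : ℝ) : ℂ), by fun_prop⟩ with hg
  obtain ⟨m0, δ, hδ, h⟩ := transfer (ν := ν) g (1 / 8) (by norm_num)
  refine ⟨m0, δ, hδ, fun K hK y hy F hF hFU => ?_⟩
  have h1 := h K hK y hy
  have hKr : (0 : ℝ) < K := by exact_mod_cast hK
  have e1 : (∑ l ∈ range K, g (y l)) / K = (((∑ l ∈ range K, f (y l)) / K : ℝ) : ℂ) := by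
    simp only [hg, ContinuousMap.coe_mk]
    push_cast
    rfl
  have e2 : ∫ x, g x ∂ν = ((∫ x, f x ∂ν : ℝ) : ℂ) := by
    simp only [hg, ContinuousMap.coe_mk]
    exact integral_ofReal
  rw [e1, e2, ← Complex.ofReal_sub, Complex.norm_real, Real.norm_eq_abs] at h1
  have h2 : ∫ x, f x ∂ν ≤ 1 / 32 := by
    have h3 : ∫ x, f x ∂ν ≤ ∫ x, Bᶜ.indicator (fun _ => (1 : ℝ)) x ∂ν := by
      refine integral_mono (Helper17.TranslM.integrable_cont _ hfc)
        ((integrable_const _).indicator hBc.isOpen_compl.measurableSet) fun x => ?_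
      by_cases hx : x ∈ B
      · rw [hfB x hx]
        exact Set.indicator_nonneg (fun _ _ => zero_le_one) _
      · rw [Set.indicator_of_mem (show x ∈ Bᶜ from hx)]
        exact hf1 x
    rw [integral_indicator_const _ hBc.isOpen_compl.measurableSet, smul_eq_mul, mul_one,
      probReal_compl_eq_one_sub hBc.measurableSet] at h3
    linarith
  have h3 : (∑ l ∈ range K, f (y l)) / K ≤ 1 / 4 := by
    have := (abs_le.1 h1).2
    linarith
  rw [div_le_iff₀ hKr] at h3
  have h4 : (F.card : ℝ) ≤ ∑ l ∈ range K, f (y l) := by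
    calc (F.card : ℝ) = ∑ l ∈ F, f (y l) := by
          rw [Finset.sum_congr rfl fun l hl => hfU (y l) (hFU l hl), Finset.sum_const,
            nsmul_eq_mul, mul_one]
      _ ≤ ∑ l ∈ range K, f (y l) :=
        Finset.sum_le_sum_of_subset_of_nonneg hF fun l _ _ => hf0 _
  have h5 : (4 * F.card : ℝ) ≤ K := by linarith
  exact_mod_cast h5

end Helper58.DW
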