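import Pool.Agent.Helper58.DW.Four
import Pool.Agent.Helper58.DW.Fin
import Pool.Agent.Helper58.FH.Thin

set_option autoImplicit false
open MeasureTheory Filter Topology Metric Finset
open scoped ComplexConjugate
open Helper58.FX (ft Erg T)
open Helper58.FH (Tor)

/-! Convergence of the averages along dyadic windows. -/

namespace Helper58.DW

/-- the average of a character along the orbit of a point over a window -/
noncomputable def av (n M : ℕ) (m : ℤ) (x : Tor) : ℂ :=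
  (∑ s ∈ Win n M, (fourier m (s • x) : ℂ)) / (Win n M).card

lemma av_eq (n M : ℕ) (m : ℤ) (x : Tor) :
    av n M m x = (∑ l ∈ range (Kn n M), (fourier m (sq n l • x) : ℂ)) / (Kn n M : ℕ) := by
  unfold av
  rw [sum_Win n M (fun s => (fourier m (s • x) : ℂ)), card_Win]

lemma continuous_av (n M : ℕ) (m : ℤ) : Continuous (av n M m) := by
  unfold av; fun_prop

variable {μ : Measure Tor}

/-- For an ergodic measure other than Lebesgue measure, all points outside a countable set see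
infinitely many windows over which the averages deviate. -/
theorem deviate [IsProbabilityMeasure μ] (h2 : MeasurePreserving (T 2) μ μ)
    (h3 : MeasurePreserving (T 3) μ μ) (hE : Erg (ft μ)) (hne : ∃ n : ℤ, n ≠ 0 ∧ ft μ n ≠ 0) :
    ∃ (m0 : ℕ) (δ : ℝ), 0 < δ ∧ ∀ M : ℕ → ℕ, Tendsto M atTop atTop →
      {x : Tor | ∃ n0 : ℕ, ∀ n, n0 ≤ n → ∀ m : ℕ, 1 ≤ m → m ≤ m0 →
        ‖av n (M n) m x - ft μ m‖ < δ}.Countable := by
  obtain ⟨A, ρ, hρ, hA, hmass⟩ := Helper58.FH.thin h2 h3 hE hne 2 1600 (1 / 32) (by norm_num)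
    (by norm_num)
  obtain ⟨m0, δ, hδ, h⟩ := near (ν := μ) A ρ hρ (by linarith)
  refine ⟨m0, δ, hδ, fun M hM => ?_⟩
  refine (countable_good A ρ hρ (by linarith) M hM).mono ?_
  rintro x ⟨n0, hx⟩
  obtain ⟨n1, hn1⟩ := eventually_atTop.1 ((tendsto_Kn M hM).eventually_ge_atTop 1)
  refine ⟨max n0 n1, fun n hn F hF hFU => ?_⟩
  refine h (Kn n (M n)) (hn1 n ((le_max_right _ _).trans hn)) (fun l => sq n l • x) ?_ F hF hFU
  intro m hm1 hm2
  have h4 := hx n ((le_max_left _ _).trans hn) m hm1 hm2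
  rw [av_eq] at h4
  exact h4

lemma conv_of_summable [IsProbabilityMeasure μ] (f : ℕ → Tor → ℂ) (c : ℂ)
    (h : ∀ η : ℝ, 0 < η → Summable fun n : ℕ => μ.real {x | η ≤ ‖f n x - c‖}) :
    ∀ᵐ x ∂μ, Tendsto (fun n => f n x) atTop (𝓝 c) := by
  have h1 : ∀ k : ℕ, ∀ᵐ x ∂μ, ∀ᶠ n in atTop, x ∉ {x | 1 / ((k : ℝ) + 1) ≤ ‖f n x - c‖} := by
    intro k
    apply ae_eventually_notMem
    have h2 := h (1 / ((k : ℝ) + 1)) (by positivity)
    have h3 := h2.tsum_ofReal_ne_top
    have h4 : ∀ n : ℕ, ENNReal.ofReal (μ.real {x | 1 / ((k : ℝ) + 1) ≤ ‖f n x - c‖}) =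
        μ {x | 1 / ((k : ℝ) + 1) ≤ ‖f n x - c‖} := fun n => ENNReal.ofReal_toReal (measure_ne_top _ _)
    simpa only [h4] using h3
  rw [← ae_all_iff] at h1
  filter_upwards [h1] with x hx
  rw [Metric.tendsto_atTop]
  intro ε hε
  obtain ⟨k, hk⟩ := exists_nat_one_div_lt hε
  obtain ⟨N, hN⟩ := eventually_atTop.1 (hx k)
  refine ⟨N, fun n hn => ?_⟩
  have h4 : ¬ 1 / ((k : ℝ) + 1) ≤ ‖f n x - c‖ := hN n hn
  rw [dist_eq_norm]
  exact (not_le.1 h4).trans hk

lemma summable_vol (m : ℕ) (hm : 1 ≤ m) (η : ℝ) (hη : 0 < η) :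
    Summable fun n : ℕ => (volume : Measure Tor).real
      {x | η ≤ ‖av n (n + 1) m x - ft (volume : Measure Tor) m‖} := by
  have h1 : ft (volume : Measure Tor) m = 0 := by
    unfold ft
    exact Helper17.TranslM.integral_fourier_vol (by omega)
  refine (summable_leb m hm η hη).congr fun n => ?_
  rw [h1]
  simp only [sub_zero, av_eq]

lemma summable_fin [IsProbabilityMeasure μ] (h2 : MeasurePreserving (T 2) μ μ)
    (h3 : MeasurePreserving (T 3) μ μ) (hE : Erg (ft μ)) (Z : Set Tor) (hZ : Z.Finite)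
    (hZ0 : μ Zᶜ = 0) (m : ℕ) (η : ℝ) (hη : 0 < η) :
    Summable fun n : ℕ => μ.real {x | η ≤ ‖av n (n + 1) m x - ft μ m‖} := by
  obtain ⟨K0, hK0⟩ := finite_conv h2 h3 hE Z hZ hZ0 m (η / 2) (by positivity)
  obtain ⟨n1, hn1⟩ := eventually_atTop.1
    ((tendsto_Kn (fun n => n + 1) (tendsto_add_atTop_nat 1)).eventually_ge_atTop K0)
  refine summable_of_hasFiniteSupport ((Set.finite_Iio n1).subset ?_)
  intro n hn
  by_contra hcon
  rw [Set.mem_Iio, not_lt] at hcon
  apply hn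
  have h4 := hK0 _ (hn1 n hcon) n (fun l hl => ll_le_of_lt hl)
  show (μ {x | η ≤ ‖av n (n + 1) m x - ft μ m‖}).toReal = 0
  rw [ENNReal.toReal_eq_zero_iff]
  left
  have h5 : ∀ᵐ x ∂μ, ¬ η ≤ ‖av n (n + 1) m x - ft μ m‖ := by
    filter_upwards [h4] with x hx
    rw [av_eq, not_le]
    exact lt_of_le_of_lt hx (by linarith)
  have h6 := ae_iff.1 h5
  simpa only [not_not] using h6

/-- convergence at almost every point for Lebesgue measure -/
lemma conv_vol : ∀ᵐ x ∂(volume : Measure Tor), ∀ m : ℕ, 1 ≤ m →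
    Tendsto (fun n => av n (n + 1) m x) atTop (𝓝 (ft (volume : Measure Tor) m)) := by
  have hp : IsProbabilityMeasure (volume : Measure Tor) := Helper17.TranslM.instProb
  rw [ae_all_iff]
  intro m
  rcases Nat.eq_zero_or_pos m with h | h
  · exact Eventually.of_forall fun x hm => by omega
  · filter_upwards [conv_of_summable (fun n => av n (n + 1) m) (ft (volume : Measure Tor) m)
      (fun η hη => summable_vol m h η hη)] with x hx _
    exact hx

end Helper58.DW
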