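import Pool.Agent.Helper58.DW.Top
import Pool.Agent.Helper40.LPA.Trace

set_option autoImplicit false
open MeasureTheory Filter Topology Finset Helper17.FU Helper17.FUGroup
open Helper91.TTT hiding Tor
open scoped ENNReal ComplexConjugate ComplexOrder InnerProductSpace

/-! Averages along dyadic windows and extreme traces. -/

namespace Helper58.DW

open Helper58.FX (ft Erg T)
open Helper58.FH (Tor)

variable {s2 s3 t : Equiv.Perm ℚ}

lemma null_of_countable {ν : Measure Tor} (hna : ∀ x : Tor, ν {x} = 0) {S : Set Tor}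
    (hS : S.Countable) : ν S = 0 := by
  rw [← Set.biUnion_of_singleton S]
  exact (measure_biUnion_null_iff hS).2 fun x _ => hna x

lemma vol_singleton (x : Tor) : (volume : Measure Tor) {x} = 0 := by
  rw [← Metric.closedBall_zero, AddCircle.volume_closedBall]
  simp

/-- the measure of the regular trace is Lebesgue measure -/
lemma vol_of_regular (ht : ∀ x : ℚ, t x = x + 1) {τ : GG s2 s3 t} (hτ : (τ : Equiv.Perm ℚ) = t)
    {φ : GG s2 s3 t → ℂ} (hφ1 : φ 1 = 1)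
    {μ : Measure Tor} [IsProbabilityMeasure μ]
    (hμ : ∀ n : ℤ, ∫ x, (fourier n x : ℂ) ∂μ = φ (τ ^ n))
    (hΔ : φ = Set.indicator ({1} : Set (GG s2 s3 t)) (fun _ => (1 : ℂ))) : μ = volume := by
  apply Helper17.TranslM.eq_of_fourier
  intro m
  rw [hμ m]
  by_cases hm : m = 0
  · subst hm
    simp [hφ1]
  · rw [Helper17.TranslM.integral_fourier_vol hm, hΔ, Set.indicator_of_notMem]
    rw [Set.mem_singleton_iff]
    intro h4
    have h5 : ((τ ^ m : GG s2 s3 t) : Equiv.Perm ℚ) 0 = 0 := by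
      rw [h4]; rfl
    rw [Subgroup.coe_zpow, hτ, t_zpow ht] at h5
    apply hm
    have : (m : ℚ) = 0 := by linarith
    exact_mod_cast this

theorem deviate_trace (h2 : ∀ x : ℚ, s2 x = 2 * x) (h3 : ∀ x : ℚ, s3 x = 3 * x)
    (ht : ∀ x : ℚ, t x = x + 1) {τ : GG s2 s3 t} (hτ : (τ : Equiv.Perm ℚ) = t)
    {φ : GG s2 s3 t → ℂ} (hφ : φ ∈ Set.extremePoints ℝ (TR (GG s2 s3 t)))
    {μ : Measure Tor} [IsProbabilityMeasure μ]
    (hμ : ∀ n : ℤ, ∫ x, (fourier n x : ℂ) ∂μ = φ (τ ^ n))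
    (hP : MeasurePreserving (T 2) μ μ) (hQ : MeasurePreserving (T 3) μ μ)
    (hΔ : φ ≠ Set.indicator ({1} : Set (GG s2 s3 t)) (fun _ => (1 : ℂ))) :
    ∃ (m0 : ℕ) (δ : ℝ), 0 < δ ∧ ∀ M : ℕ → ℕ, Tendsto M atTop atTop →
      {x : Tor | ∃ n0 : ℕ, ∀ n, n0 ≤ n → ∀ m : ℕ, 1 ≤ m → m ≤ m0 →
        ‖av n (M n) m x - φ (τ ^ (m : ℤ))‖ < δ}.Countable := by
  have hE : Erg (ft μ) := Pool.Agent.Helper40.TMA.erg_of_extreme h2 h3 ht hτ hφ hμ
  have hne : ∃ n : ℤ, n ≠ 0 ∧ ft μ n ≠ 0 := by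
    by_contra hcon
    push Not at hcon
    apply hΔ
    refine eq_indicator h2 h3 ht φ hφ.1 τ hτ ?_
    intro m hm
    rw [← hμ m]
    exact hcon m hm
  obtain ⟨m0, δ, hδ, h⟩ := deviate hP hQ hE hne
  refine ⟨m0, δ, hδ, fun M hM => ?_⟩
  have h4 := h M hM
  have e : ∀ m : ℕ, ft μ m = φ (τ ^ (m : ℤ)) := fun m => hμ m
  simpa only [e] using h4

theorem countable_iff (h2 : ∀ x : ℚ, s2 x = 2 * x) (h3 : ∀ x : ℚ, s3 x = 3 * x)
    (ht : ∀ x : ℚ, t x = x + 1) {τ : GG s2 s3 t} (hτ : (τ : Equiv.Perm ℚ) = t)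
    {φ : GG s2 s3 t → ℂ} (hφ : φ ∈ Set.extremePoints ℝ (TR (GG s2 s3 t)))
    {μ : Measure Tor} [IsProbabilityMeasure μ]
    (hμ : ∀ n : ℤ, ∫ x, (fourier n x : ℂ) ∂μ = φ (τ ^ n))
    (h : {x : Tor | ∀ m : ℕ, 1 ≤ m →
      Tendsto (fun n => av n (n + 1) m x) atTop (𝓝 (φ (τ ^ (m : ℤ))))}.Countable) :
    φ ≠ Set.indicator ({1} : Set (GG s2 s3 t)) (fun _ => (1 : ℂ)) := by
  intro hΔ
  have hv := vol_of_regular ht hτ hφ.1.1 hμ hΔ
  have hp : IsProbabilityMeasure (volume : Measure Tor) := Helper17.TranslM.instProb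
  have h4 : ∀ᵐ x ∂(volume : Measure Tor), x ∈ {x : Tor | ∀ m : ℕ, 1 ≤ m →
      Tendsto (fun n => av n (n + 1) m x) atTop (𝓝 (φ (τ ^ (m : ℤ))))} := by
    filter_upwards [conv_vol] with x hx
    intro m hm
    have h5 := hx m hm
    rw [← hv] at h5
    rw [← hμ m]
    exact h5
  have h5 : (volume : Measure Tor) {x : Tor | ∀ m : ℕ, 1 ≤ m →
      Tendsto (fun n => av n (n + 1) m x) atTop (𝓝 (φ (τ ^ (m : ℤ))))} = 0 :=
    null_of_countable vol_singleton h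
  have h6 : (volume : Measure Tor) Set.univ = 0 := by
    refine measure_mono_null (fun x _ => em _) (measure_union_null h5 (ae_iff.1 h4))
  rw [measure_univ] at h6
  exact one_ne_zero h6

theorem classified_tfae (h2 : ∀ x : ℚ, s2 x = 2 * x) (h3 : ∀ x : ℚ, s3 x = 3 * x)
    (ht : ∀ x : ℚ, t x = x + 1) {τ : GG s2 s3 t} (hτ : (τ : Equiv.Perm ℚ) = t)
    {φ : GG s2 s3 t → ℂ} (hφ : φ ∈ Set.extremePoints ℝ (TR (GG s2 s3 t)))
    {μ : Measure Tor} [IsProbabilityMeasure μ]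
    (hμ : ∀ n : ℤ, ∫ x, (fourier n x : ℂ) ∂μ = φ (τ ^ n))
    (hP : MeasurePreserving (T 2) μ μ) (hQ : MeasurePreserving (T 3) μ μ) :
    [φ = Set.indicator ({1} : Set (GG s2 s3 t)) (fun _ => (1 : ℂ)) ∨
        FiniteDimensional ℂ (Submodule.span ℂ {F : GG s2 s3 t → ℂ | ∃ n : GG s2 s3 t,
          IsTr n ∧ F = fun x => φ (n * x)}),
      ∀ (m : ℕ) (η : ℝ), 1 ≤ m → 0 < η → Summable fun n : ℕ =>
        μ.real {x | η ≤ ‖av n (n + 1) m x - φ (τ ^ (m : ℤ))‖},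
      ∀ᵐ x ∂μ, ∀ m : ℕ, 1 ≤ m →
        Tendsto (fun n => av n (n + 1) m x) atTop (𝓝 (φ (τ ^ (m : ℤ)))),
      ∀ (m0 : ℕ) (δ : ℝ), 0 < δ → ∃ M : ℕ → ℕ, Tendsto M atTop atTop ∧
        μ {x : Tor | ∃ n0 : ℕ, ∀ n, n0 ≤ n → ∀ m : ℕ, 1 ≤ m → m ≤ m0 →
          ‖av n (M n) m x - φ (τ ^ (m : ℤ))‖ < δ} ≠ 0].TFAE := by
  have hE : Erg (ft μ) := Pool.Agent.Helper40.TMA.erg_of_extreme h2 h3 ht hτ hφ hμ
  have e : ∀ m : ℕ, ft μ m = φ (τ ^ (m : ℤ)) := fun m => hμ m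
  tfae_have 1 → 2 := by
    rintro (hΔ | hfd) m η hm hη
    · have hv := vol_of_regular ht hτ hφ.1.1 hμ hΔ
      have h4 := summable_vol m hm η hη
      rw [← hv] at h4
      simpa only [e] using h4
    · obtain ⟨d, c, hc, h0⟩ := Pool.Agent.Helper40.TMA.exists_recurrence hτ ht hfd
      obtain ⟨Z, hZ, hZ0⟩ := Pool.Agent.Helper40.TMA.finite_support μ d c hc (by
        intro m
        rw [← h0 m]
        refine Finset.sum_congr rfl fun j _ => ?_
        rw [← hμ]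
        rfl)
      have h4 := summable_fin hP hQ hE Z hZ hZ0 m η hη
      simpa only [e] using h4
  tfae_have 2 → 3 := by
    intro h
    rw [ae_all_iff]
    intro m
    rcases Nat.eq_zero_or_pos m with hm | hm
    · exact Eventually.of_forall fun x hm => by omega
    · filter_upwards [conv_of_summable (fun n => av n (n + 1) m) (φ (τ ^ (m : ℤ)))
        (fun η hη => h m η hm hη)] with x hx _
      exact hx
  tfae_have 3 → 4 := by
    intro h m0 δ hδ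
    refine ⟨fun n => n + 1, tendsto_add_atTop_nat 1, fun h0 => ?_⟩
    have h4 : ∀ᵐ x ∂μ, x ∈ {x : Tor | ∃ n0 : ℕ, ∀ n, n0 ≤ n → ∀ m : ℕ, 1 ≤ m → m ≤ m0 →
          ‖av n (n + 1) m x - φ (τ ^ (m : ℤ))‖ < δ} := by
      filter_upwards [h] with x hx
      have h5 : ∀ᶠ n : ℕ in atTop, ∀ m ∈ Finset.Icc 1 m0,
          ‖av n (n + 1) m x - φ (τ ^ (m : ℤ))‖ < δ := by
        rw [Finset.eventually_all]
        intro m hm
        have h6 := hx m (Finset.mem_Icc.1 hm).1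
        have h7 := Metric.tendsto_nhds.1 h6 δ hδ
        simpa only [dist_eq_norm] using h7
      obtain ⟨n0, hn0⟩ := eventually_atTop.1 h5
      exact ⟨n0, fun n hn m hm1 hm2 => hn0 n hn m (Finset.mem_Icc.2 ⟨hm1, hm2⟩)⟩
    have h6 : μ Set.univ = 0 := by
      refine measure_mono_null (fun x _ => em _) (measure_union_null h0 (ae_iff.1 h4))
    rw [measure_univ] at h6
    exact one_ne_zero h6
  tfae_have 4 → 1 := by
    intro h
    by_contra hcon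
    push Not at hcon
    obtain ⟨m0, δ, hδ, h4⟩ := deviate_trace h2 h3 ht hτ hφ hμ hP hQ hcon.1
    obtain ⟨M, hM, h5⟩ := h m0 δ hδ
    have hna := Pool.Agent.Helper40.LPA.no_atoms_of_infinite h2 h3 ht hτ hφ hμ hcon.2
    exact h5 (null_of_countable hna (h4 M hM))
  tfae_finish

end Helper58.DW
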